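import Mathlib

/-!
Random signs, and the moments of the walk which they drive.
-/

namespace Pool.Agent.Lib.MP_30d2b9_nt

open MeasureTheory ProbabilityTheory Finset

variable {Ω : Type} [m0 : MeasurableSpace Ω]

open Classical in
/-- The sign of index `l`: it is `-1` when the event holds. -/
noncomputable def sg (A : ℕ → Set Ω) (l : ℕ) (ω : Ω) : ℝ := if ω ∈ A l then -1 else 1

omit m0 in
/-- The σ-algebra of the events with index in `I`. -/
@[instance_reducible]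
def FF (A : ℕ → Set Ω) (I : Set ℕ) : MeasurableSpace Ω :=
  ⨆ l ∈ I, MeasurableSpace.generateFrom {A l}

section
variable {A : ℕ → Set Ω}

omit m0 in
theorem FF_mono {I J : Set ℕ} (h : I ⊆ J) : FF A I ≤ FF A J :=
  biSup_mono h

theorem FF_le (hA : ∀ l, MeasurableSet (A l)) (I : Set ℕ) : FF A I ≤ m0 := by
  exact iSup₂_le fun l _ => MeasurableSpace.generateFrom_singleton_le (hA l)

omit m0 in
theorem mem_FF {I : Set ℕ} {l : ℕ} (h : l ∈ I) : MeasurableSet[FF A I] (A l) := by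
  have h1 : MeasurableSpace.generateFrom {A l} ≤ FF A I :=
    le_iSup₂ (f := fun l (_ : l ∈ I) => MeasurableSpace.generateFrom {A l}) l h
  exact h1 _ (MeasurableSpace.measurableSet_generateFrom (Set.mem_singleton _))

omit m0 in
theorem sg_meas {I : Set ℕ} {l : ℕ} (h : l ∈ I) : Measurable[FF A I] (sg A l) := by
  classical
  let _ := FF A I
  unfold sg
  exact Measurable.ite (mem_FF h) measurable_const measurable_const

omit m0 in
theorem sg_or (l : ℕ) (ω : Ω) : sg A l ω = 1 ∨ sg A l ω = -1 := by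
  unfold sg
  split_ifs
  · exact Or.inr rfl
  · exact Or.inl rfl

omit m0 in
theorem sg_sq (l : ℕ) (ω : Ω) : sg A l ω ^ 2 = 1 := by
  rcases sg_or (A := A) l ω with h | h <;> rw [h] <;> norm_num

variable {P : Measure Ω}

theorem FF_indep (hA : ∀ l, MeasurableSet (A l)) (hind : iIndepSet A P) {I J : Set ℕ}
    (h : Disjoint I J) : Indep (FF A I) (FF A J) P :=
  indep_iSup_of_disjoint
    (fun l => MeasurableSpace.generateFrom_singleton_le (hA l))
    ((iIndepSet_iff_iIndep _ _).1 hind) h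

theorem inter_mul (hA : ∀ l, MeasurableSet (A l)) (hind : iIndepSet A P) {I J : Set ℕ}
    (h : Disjoint I J) {B E : Set Ω} (hB : MeasurableSet[FF A I] B)
    (hE : MeasurableSet[FF A J] E) : P.real (B ∩ E) = P.real B * P.real E := by
  have h1 := (Indep_iff _ _ _).1 (FF_indep hA hind h) B E hB hE
  rw [Measure.real, h1, ENNReal.toReal_mul]
  rfl

theorem int_mul (hA : ∀ l, MeasurableSet (A l)) (hind : iIndepSet A P) {I J : Set ℕ}
    (h : Disjoint I J) {f g : Ω → ℝ} (hf : Measurable[FF A I] f) (hg : Measurable[FF A J] g) :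
    ∫ ω, f ω * g ω ∂P = (∫ ω, f ω ∂P) * ∫ ω, g ω ∂P := by
  have h1 : IndepFun f g P := by
    rw [IndepFun_iff_Indep]
    exact indep_of_indep_of_le_left (indep_of_indep_of_le_right (FF_indep hA hind h)
      (measurable_iff_comap_le.1 hg)) (measurable_iff_comap_le.1 hf)
  exact h1.integral_fun_mul_eq_mul_integral
    (hf.mono (FF_le hA I) le_rfl).aestronglyMeasurable
    (hg.mono (FF_le hA J) le_rfl).aestronglyMeasurable

end

/-- The walk from index `i` over `n` gaps in the direction before index `i`. -/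
noncomputable def UU (A : ℕ → Set Ω) (g : ℕ → ℝ) : ℕ → ℕ → Ω → ℝ
  | 0, _, _ => 0
  | n + 1, i, ω => sg A i ω * (g i + UU A g n (i + 1) ω)

/-- Sum of squares. -/
noncomputable def SS (g : ℕ → ℝ) (n i : ℕ) : ℝ := ∑ l ∈ Ico i (i + n), g l ^ 2

theorem SS_zero (g : ℕ → ℝ) (i : ℕ) : SS g 0 i = 0 := by simp [SS]

theorem SS_succ (g : ℕ → ℝ) (n i : ℕ) : SS g (n + 1) i = g i ^ 2 + SS g n (i + 1) := by
  rw [SS, SS, Finset.sum_eq_sum_Ico_succ_bot (by omega)]
  congr 2
  congr 1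
  omega

theorem SS_nonneg (g : ℕ → ℝ) (n i : ℕ) : 0 ≤ SS g n i := sum_nonneg fun _ _ => sq_nonneg _

section
variable {A : ℕ → Set Ω} {g : ℕ → ℝ}

omit m0 in
theorem UU_meas (n i : ℕ) : Measurable[FF A (Set.Ico i (i + n))] (UU A g n i) := by
  induction n generalizing i with
  | zero =>
    have : UU A g 0 i = fun _ => 0 := rfl
    rw [this]
    exact measurable_const
  | succ n ih =>
    have h1 : Measurable[FF A (Set.Ico i (i + (n + 1)))] (UU A g n (i + 1)) := by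
      refine (ih (i + 1)).mono (FF_mono ?_) le_rfl
      intro l hl
      simp only [Set.mem_Ico] at hl ⊢
      omega
    have h2 : Measurable[FF A (Set.Ico i (i + (n + 1)))] (sg A i) :=
      sg_meas (by simp)
    have h3 : UU A g (n + 1) i = fun ω => sg A i ω * (g i + UU A g n (i + 1) ω) := rfl
    rw [h3]
    let _ := FF A (Set.Ico i (i + (n + 1)))
    exact h2.mul (h1.const_add _)

omit m0 in
theorem UU_bound (n i : ℕ) : ∃ K : ℝ, ∀ ω, |UU A g n i ω| ≤ K := by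
  induction n generalizing i with
  | zero => exact ⟨0, fun ω => by simp [UU]⟩
  | succ n ih =>
    obtain ⟨K, hK⟩ := ih (i + 1)
    refine ⟨|g i| + K, fun ω => ?_⟩
    have h1 : |UU A g (n + 1) i ω| = |g i + UU A g n (i + 1) ω| := by
      rw [UU, abs_mul]
      rcases sg_or (A := A) i ω with h | h <;> rw [h] <;> simp
    rw [h1]
    exact (abs_add_le _ _).trans (by linarith [hK ω])

variable {P : Measure Ω} [IsProbabilityMeasure P]

theorem UU_int (hA : ∀ l, MeasurableSet (A l)) (n i k : ℕ) :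
    Integrable (fun ω => UU A g n i ω ^ k) P := by
  obtain ⟨K, hK⟩ := UU_bound (A := A) (g := g) n i
  refine Integrable.of_bound (C := K ^ k) ?_ ?_
  · exact (((UU_meas n i).mono (FF_le hA _) le_rfl).pow_const k).aestronglyMeasurable
  · refine Filter.Eventually.of_forall fun ω => ?_
    rw [Real.norm_eq_abs, abs_pow]
    exact pow_le_pow_left₀ (abs_nonneg _) (hK ω) k

end

/-- The signs with index in `[a, b)` take both values with probability at least `η`. -/
def Rg (P : Measure Ω) (A : ℕ → Set Ω) (η : ℝ) (a b : ℕ) : Prop :=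
  ∀ l, a ≤ l → l < b → η ≤ P.real (A l) ∧ P.real (A l) ≤ 1 - η

theorem Rg.mono {P : Measure Ω} {A : ℕ → Set Ω} {η : ℝ} {a b a' b' : ℕ} (h : Rg P A η a b)
    (ha : a ≤ a') (hb : b' ≤ b) : Rg P A η a' b' :=
  fun l h1 h2 => h l (by omega) (by omega)

section
variable {A : ℕ → Set Ω} {P : Measure Ω} [IsProbabilityMeasure P]

theorem int_sg (hA : ∀ l, MeasurableSet (A l)) (l : ℕ) :
    ∫ ω, sg A l ω ∂P = 1 - 2 * P.real (A l) := by
  classical
  have h1 : ∀ ω, sg A l ω = 1 - 2 * (A l).indicator (fun _ => (1 : ℝ)) ω := by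
    intro ω
    unfold sg
    by_cases h : ω ∈ A l
    · rw [if_pos h, Set.indicator_of_mem h]
      norm_num
    · rw [if_neg h, Set.indicator_of_notMem h]
      norm_num
  have h2 : Integrable ((A l).indicator fun _ => (1 : ℝ)) P :=
    (integrable_const 1).indicator (hA l)
  calc ∫ ω, sg A l ω ∂P = ∫ ω, (1 - 2 * (A l).indicator (fun _ => (1 : ℝ)) ω) ∂P :=
        integral_congr_ae (Filter.Eventually.of_forall h1)
    _ = 1 - 2 * ∫ ω, (A l).indicator (fun _ => (1 : ℝ)) ω ∂P := by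
        rw [integral_sub (integrable_const _) (h2.const_mul 2), integral_const_mul]
        simp
    _ = _ := by
        rw [integral_indicator_const _ (hA l)]
        simp

/-- The moments of the walk. -/
structure Mom (P : Measure Ω) (A : ℕ → Set Ω) (g : ℕ → ℝ) (ρ : ℝ) (n i : ℕ) (a b c d : ℝ) :
    Prop where
  a0 : 0 ≤ a
  b0 : 0 ≤ b
  c0 : 0 ≤ c
  d0 : 0 ≤ d
  m1 : |∫ ω, UU A g n i ω ^ 1 ∂P| ≤ a
  m2 : ∫ ω, UU A g n i ω ^ 2 ∂P ≤ b
  m3 : |∫ ω, UU A g n i ω ^ 3 ∂P| ≤ c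
  m4 : ∫ ω, UU A g n i ω ^ 4 ∂P ≤ d
  ab : (1 - ρ) * (ρ * b + a ^ 2) ≤ ρ * (1 + ρ) * SS g n i
  ca : c ≤ 6 * a * b
  db : d ≤ 24 * b ^ 2
  low : (1 - ρ) * ρ * SS g n i ≤
    (1 + ρ) * (ρ * (∫ ω, UU A g n i ω ^ 2 ∂P) - (∫ ω, UU A g n i ω ^ 1 ∂P) ^ 2)

theorem int_poly {u : Ω → ℝ} (h : ∀ k : ℕ, Integrable (fun ω => u ω ^ k) P)
    (c0 c1 c2 c3 c4 : ℝ) :
    ∫ ω, (c0 + c1 * u ω ^ 1 + c2 * u ω ^ 2 + c3 * u ω ^ 3 + c4 * u ω ^ 4) ∂P =
      c0 + c1 * (∫ ω, u ω ^ 1 ∂P) + c2 * (∫ ω, u ω ^ 2 ∂P) + c3 * (∫ ω, u ω ^ 3 ∂P) +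
        c4 * (∫ ω, u ω ^ 4 ∂P) := by
  have h0 : Integrable (fun _ : Ω => c0) P := integrable_const _
  have h1 := (h 1).const_mul c1
  have h2 := (h 2).const_mul c2
  have h3 := (h 3).const_mul c3
  have h4 := (h 4).const_mul c4
  have h01 : Integrable (fun ω => c0 + c1 * u ω ^ 1) P := h0.add h1
  have h02 : Integrable (fun ω => c0 + c1 * u ω ^ 1 + c2 * u ω ^ 2) P := h01.add h2
  have h03 : Integrable (fun ω => c0 + c1 * u ω ^ 1 + c2 * u ω ^ 2 + c3 * u ω ^ 3) P :=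
    h02.add h3
  rw [integral_add h03 h4, integral_add h02 h3, integral_add h01 h2, integral_add h0 h1]
  simp only [integral_const_mul, integral_const, probReal_univ, smul_eq_mul, one_mul]

theorem exists_mom (hA : ∀ l, MeasurableSet (A l)) (hind : iIndepSet A P) {g : ℕ → ℝ}
    (hg : ∀ l, 0 ≤ g l) {ρ : ℝ} (hρ0 : 0 ≤ ρ) (hρ1 : ρ < 1) {η : ℝ} (hη : ρ = 1 - 2 * η) (n : ℕ) :
    ∀ i, Rg P A η i (i + n) → ∃ a b c d, Mom P A g ρ n i a b c d := by
  induction n with
  | zero =>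
    intro i _
    refine ⟨0, 0, 0, 0, le_rfl, le_rfl, le_rfl, le_rfl, ?_, ?_, ?_, ?_, ?_, ?_, ?_, ?_⟩ <;>
      simp [UU, SS_zero]
  | succ n ih =>
    intro i hR
    obtain ⟨a, b, c, d, h⟩ := ih (i + 1) (hR.mono (by omega) (by omega))
    have hmem := hR i le_rfl (by omega)
    have hgi := hg i
    obtain ⟨μ, hμ⟩ : ∃ μ, μ = ∫ ω, sg A i ω ∂P := ⟨_, rfl⟩
    have hμ1 : |μ| ≤ ρ := by
      rw [hμ, int_sg hA, hη, abs_le]
      constructor <;> linarith [hmem.1, hmem.2]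
    have hdisj : Disjoint ({i} : Set ℕ) (Set.Ico (i + 1) (i + 1 + n)) := by
      rw [Set.disjoint_singleton_left]
      simp
    have hX : ∀ k : ℕ, Measurable[FF A (Set.Ico (i + 1) (i + 1 + n))]
        (fun ω => (g i + UU A g n (i + 1) ω) ^ k) := by
      intro k
      have h1 := UU_meas (A := A) (g := g) n (i + 1)
      let _ := FF A (Set.Ico (i + 1) (i + 1 + n))
      exact (h1.const_add _).pow_const k
    have hs : Measurable[FF A {i}] (sg A i) := sg_meas rfl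
    have I := UU_int (P := P) (g := g) hA n (i + 1)
    obtain ⟨m1, hm1⟩ : ∃ m, m = ∫ ω, UU A g n (i + 1) ω ^ 1 ∂P := ⟨_, rfl⟩
    obtain ⟨m2, hm2⟩ : ∃ m, m = ∫ ω, UU A g n (i + 1) ω ^ 2 ∂P := ⟨_, rfl⟩
    obtain ⟨m3, hm3⟩ : ∃ m, m = ∫ ω, UU A g n (i + 1) ω ^ 3 ∂P := ⟨_, rfl⟩
    obtain ⟨m4, hm4⟩ : ∃ m, m = ∫ ω, UU A g n (i + 1) ω ^ 4 ∂P := ⟨_, rfl⟩
    have E := int_poly I
    rw [← hm1, ← hm2, ← hm3, ← hm4] at E
    have e1 : ∫ ω, UU A g (n + 1) i ω ^ 1 ∂P = μ * (g i + m1) := by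
      have h1 : ∫ ω, (g i + UU A g n (i + 1) ω) ^ 1 ∂P = g i + m1 := by
        calc _ = _ := integral_congr_ae (Filter.Eventually.of_forall fun ω => by ring)
          _ = _ := E (g i) 1 0 0 0
          _ = _ := by ring
      rw [← h1, hμ, ← int_mul hA hind hdisj hs (hX 1)]
      refine integral_congr_ae (Filter.Eventually.of_forall fun ω => ?_)
      simp only [UU]
      ring
    have e2 : ∫ ω, UU A g (n + 1) i ω ^ 2 ∂P = g i ^ 2 + 2 * g i * m1 + m2 := by
      calc ∫ ω, UU A g (n + 1) i ω ^ 2 ∂P = _ :=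
            integral_congr_ae (Filter.Eventually.of_forall fun ω => by
              simp only [UU]
              rw [mul_pow, sg_sq]
              ring)
        _ = _ := E (g i ^ 2) (2 * g i) 1 0 0
        _ = _ := by ring
    have e3 : ∫ ω, UU A g (n + 1) i ω ^ 3 ∂P =
        μ * (g i ^ 3 + 3 * g i ^ 2 * m1 + 3 * g i * m2 + m3) := by
      have h1 : ∫ ω, (g i + UU A g n (i + 1) ω) ^ 3 ∂P =
          g i ^ 3 + 3 * g i ^ 2 * m1 + 3 * g i * m2 + m3 := by
        calc _ = _ := integral_congr_ae (Filter.Eventually.of_forall fun ω => by ring)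
          _ = _ := E (g i ^ 3) (3 * g i ^ 2) (3 * g i) 1 0
          _ = _ := by ring
      rw [← h1, hμ, ← int_mul hA hind hdisj hs (hX 3)]
      refine integral_congr_ae (Filter.Eventually.of_forall fun ω => ?_)
      simp only [UU]
      have h2 := sg_sq (A := A) i ω
      linear_combination (sg A i ω * (g i + UU A g n (i + 1) ω) ^ 3) * h2
    have e4 : ∫ ω, UU A g (n + 1) i ω ^ 4 ∂P =
        g i ^ 4 + 4 * g i ^ 3 * m1 + 6 * g i ^ 2 * m2 + 4 * g i * m3 + m4 := by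
      calc ∫ ω, UU A g (n + 1) i ω ^ 4 ∂P = _ :=
            integral_congr_ae (Filter.Eventually.of_forall fun ω => by
              simp only [UU]
              have h2 : sg A i ω ^ 4 = 1 := by
                rw [show 4 = 2 * 2 from rfl, pow_mul, sg_sq, one_pow]
              rw [mul_pow, h2]
              ring)
        _ = _ := E (g i ^ 4) (4 * g i ^ 3) (6 * g i ^ 2) (4 * g i) 1
        _ = _ := by ring
    obtain ⟨G, hG⟩ : ∃ G, G = g i := ⟨_, rfl⟩
    rw [← hG] at hgi e1 e2 e3 e4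
    obtain ⟨h_a0, h_b0, h_c0, h_d0, h_m1, h_m2, h_m3, h_m4, h_ab, h_ca, h_db, h_low⟩ := h
    rw [← hm1] at h_m1 h_low
    rw [← hm2] at h_m2 h_low
    rw [← hm3] at h_m3
    rw [← hm4] at h_m4
    have q1 := (le_abs_self m1).trans h_m1
    have q3 := (le_abs_self m3).trans h_m3
    have q2 : 0 ≤ m2 := by
      rw [hm2]
      exact integral_nonneg fun ω => by positivity
    refine ⟨ρ * (G + a), G ^ 2 + 2 * G * a + b, ρ * (G ^ 3 + 3 * G ^ 2 * a + 3 * G * b + c),
      G ^ 4 + 4 * G ^ 3 * a + 6 * G ^ 2 * b + 4 * G * c + d, ?_, ?_, ?_, ?_, ?_, ?_, ?_, ?_, ?_,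
      ?_, ?_, ?_⟩
    · positivity
    · positivity
    · positivity
    · positivity
    · rw [e1, abs_mul]
      refine mul_le_mul hμ1 ?_ (abs_nonneg _) hρ0
      refine (abs_add_le _ _).trans ?_
      rw [abs_of_nonneg hgi]
      linarith
    · rw [e2]
      have : 2 * G * m1 ≤ 2 * G * a := by gcongr
      linarith
    · rw [e3, abs_mul]
      refine mul_le_mul hμ1 ?_ (abs_nonneg _) hρ0
      have t1 : 3 * G ^ 2 * m1 ≤ 3 * G ^ 2 * a := by gcongr
      have t2 : 3 * G * m2 ≤ 3 * G * b := by gcongr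
      have t3 : 3 * G ^ 2 * (-m1) ≤ 3 * G ^ 2 * a := by
        gcongr
        exact (neg_le_abs _).trans h_m1
      have t4 : 0 ≤ 3 * G * m2 := by positivity
      have t5 : 0 ≤ 3 * G * b := by positivity
      have t6 : 0 ≤ G ^ 3 := by positivity
      have t7 := (neg_le_abs m3).trans h_m3
      rw [abs_le]
      constructor
      · linarith
      · linarith
    · rw [e4]
      have t1 : 4 * G ^ 3 * m1 ≤ 4 * G ^ 3 * a := by gcongr
      have t2 : 6 * G ^ 2 * m2 ≤ 6 * G ^ 2 * b := by gcongr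
      have t3 : 4 * G * m3 ≤ 4 * G * c := by gcongr
      linarith
    · rw [SS_succ, ← hG]
      have t1 : 0 ≤ (1 + ρ) * (ρ * G - (1 - ρ) * a) ^ 2 := by positivity
      linear_combination h_ab + t1
    · have t1 : 0 ≤ ρ * (5 * G ^ 3 + 15 * G ^ 2 * a + 3 * G * b + 12 * G * a ^ 2) := by
        positivity
      have t2 : 0 ≤ ρ * (6 * a * b - c) := mul_nonneg hρ0 (by linarith)
      linear_combination t1 + t2
    · have t1 : 0 ≤ 23 * G ^ 4 + 92 * G ^ 3 * a + 96 * G ^ 2 * a ^ 2 + 42 * G ^ 2 * b +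
          72 * G * a * b := by positivity
      have t2 : 0 ≤ 4 * G * (6 * a * b - c) := mul_nonneg (by positivity) (by linarith)
      linear_combination t1 + t2 + h_db
    · rw [e1, e2, SS_succ, ← hG]
      have t1 : 0 ≤ (1 - ρ) * (ρ * G + (1 + ρ) * m1) ^ 2 :=
        mul_nonneg (by linarith) (sq_nonneg _)
      have t2 : 0 ≤ (1 + ρ) * ((ρ ^ 2 - μ ^ 2) * (G + m1) ^ 2) := by
        refine mul_nonneg (by linarith) (mul_nonneg ?_ (sq_nonneg _))
        have := sq_le_sq' (abs_le.1 hμ1).1 (abs_le.1 hμ1).2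
        linarith
      linear_combination h_low + t1 + t2

/-- The second moment is at most `S / η`. -/
theorem second_le (hA : ∀ l, MeasurableSet (A l)) (hind : iIndepSet A P) {g : ℕ → ℝ}
    (hg : ∀ l, 0 ≤ g l) {η : ℝ} (h0 : 0 < η) (h1 : η ≤ 1 / 4) {n i : ℕ}
    (hR : Rg P A η i (i + n)) : ∫ ω, UU A g n i ω ^ 2 ∂P ≤ SS g n i / η := by
  obtain ⟨a, b, c, d, h⟩ := exists_mom hA hind hg (ρ := 1 - 2 * η) (by linarith) (by linarith)
    rfl n i hR
  refine h.m2.trans ?_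
  rw [le_div_iff₀ h0]
  have h2 := h.ab
  have h3 := SS_nonneg g n i
  have h4 : 0 ≤ 2 * η * a ^ 2 := by positivity
  have h5 : (1 - 2 * η) * (2 * (b * η)) ≤ (1 - 2 * η) * (2 * SS g n i) := by
    have h6 : 0 ≤ (1 - 2 * η) * (2 * η * SS g n i) :=
      mul_nonneg (by linarith) (by positivity)
    linear_combination h2 + h4 + h6
  have h7 := le_of_mul_le_mul_left h5 (by linarith)
  linarith

/-- The second moment is at least `η S`. -/
theorem le_second (hA : ∀ l, MeasurableSet (A l)) (hind : iIndepSet A P) {g : ℕ → ℝ}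
    (hg : ∀ l, 0 ≤ g l) {η : ℝ} (h0 : 0 < η) (h1 : η ≤ 1 / 4) {n i : ℕ}
    (hR : Rg P A η i (i + n)) : η * SS g n i ≤ ∫ ω, UU A g n i ω ^ 2 ∂P := by
  obtain ⟨a, b, c, d, h⟩ := exists_mom hA hind hg (ρ := 1 - 2 * η) (by linarith) (by linarith)
    rfl n i hR
  obtain ⟨m, hm⟩ : ∃ m, m = ∫ ω, UU A g n i ω ^ 2 ∂P := ⟨_, rfl⟩
  obtain ⟨m', hm'⟩ : ∃ m, m = ∫ ω, UU A g n i ω ^ 1 ∂P := ⟨_, rfl⟩
  have h2 := h.low
  rw [← hm, ← hm'] at h2
  rw [← hm]
  have h3 := SS_nonneg g n i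
  have h4 : 0 ≤ (1 + (1 - 2 * η)) * m' ^ 2 := mul_nonneg (by linarith) (sq_nonneg _)
  have h5 : (1 - 2 * η) * (2 * (η * SS g n i)) ≤ (1 - 2 * η) * (2 * (1 - η) * m) := by
    linear_combination h2 + h4
  have h6 := le_of_mul_le_mul_left h5 (by linarith)
  have h7 : 0 ≤ η * SS g n i := by positivity
  nlinarith

/-- The fourth moment is at most `24 (S / η) ^ 2`. -/
theorem fourth_le (hA : ∀ l, MeasurableSet (A l)) (hind : iIndepSet A P) {g : ℕ → ℝ}
    (hg : ∀ l, 0 ≤ g l) {η : ℝ} (h0 : 0 < η) (h1 : η ≤ 1 / 4) {n i : ℕ}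
    (hR : Rg P A η i (i + n)) : ∫ ω, UU A g n i ω ^ 4 ∂P ≤ 24 * (SS g n i / η) ^ 2 := by
  obtain ⟨a, b, c, d, h⟩ := exists_mom hA hind hg (ρ := 1 - 2 * η) (by linarith) (by linarith)
    rfl n i hR
  refine h.m4.trans (h.db.trans ?_)
  have h8 : b ≤ SS g n i / η := by
    rw [le_div_iff₀ h0]
    have h2 := h.ab
    have h3 := SS_nonneg g n i
    have h4 : 0 ≤ 2 * η * a ^ 2 := by positivity
    have h5 : (1 - 2 * η) * (2 * (b * η)) ≤ (1 - 2 * η) * (2 * SS g n i) := by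
      have h6 : 0 ≤ (1 - 2 * η) * (2 * η * SS g n i) :=
        mul_nonneg (by linarith) (by positivity)
      linear_combination h2 + h4 + h6
    have h7 := le_of_mul_le_mul_left h5 (by linarith)
    linarith
  have h9 := pow_le_pow_left₀ h.b0 h8 2
  linarith

end

end Pool.Agent.Lib.MP_30d2b9_nt
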