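import Mathlib
import Pool.Agent.Lib.MP_30d2b9_nt.Moments

/-!
Windows: with probability bounded from below the walk moves far in a given direction, and stays
near its starting point most of the time.
-/

namespace Pool.Agent.Lib.MP_30d2b9_nt

open MeasureTheory ProbabilityTheory Finset

variable {Ω : Type} [m0 : MeasurableSpace Ω] {A : ℕ → Set Ω} {P : Measure Ω}

omit m0 in
theorem setOf_sg_one (l : ℕ) : {ω | sg A l ω = 1} = (A l)ᶜ := by
  ext ω
  unfold sg
  by_cases h : ω ∈ A l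
  · simp only [Set.mem_ofPred_eq, Set.mem_compl_iff, h, not_true_eq_false, iff_false, if_true]
    norm_num
  · simp [h]

omit m0 in
theorem setOf_sg_neg (l : ℕ) : {ω | sg A l ω = -1} = A l := by
  ext ω
  unfold sg
  by_cases h : ω ∈ A l
  · simp [h]
  · simp only [Set.mem_ofPred_eq, h, iff_false, if_false]
    norm_num

variable [IsProbabilityMeasure P]

theorem sg_prob (hA : ∀ l, MeasurableSet (A l)) {η : ℝ} {a b l : ℕ} (hR : Rg P A η a b)
    (h1 : a ≤ l) (h2 : l < b) {s : ℝ} (hs : s = 1 ∨ s = -1) :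
    η ≤ P.real {ω | sg A l ω = s} := by
  obtain ⟨h3, h4⟩ := hR l h1 h2
  rcases hs with rfl | rfl
  · rw [setOf_sg_one, probReal_compl_eq_one_sub (hA l)]
    linarith
  · rw [setOf_sg_neg]
    exact h3

/-- The Paley–Zygmund inequality for the walk. -/
theorem pz (hA : ∀ l, MeasurableSet (A l)) (hind : iIndepSet A P) {g : ℕ → ℝ}
    (hg : ∀ l, 0 ≤ g l) {η : ℝ} (h0 : 0 < η) (h1 : η ≤ 1 / 4) {n i : ℕ}
    (hR : Rg P A η i (i + n)) (hS : 0 < SS g n i) :
    η ^ 4 / 96 ≤ P.real {ω | η / 2 * SS g n i ≤ UU A g n i ω ^ 2} := by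
  have e2 := le_second hA hind hg h0 h1 hR
  have e4 := fourth_le hA hind hg h0 h1 hR
  obtain ⟨S, hSS⟩ : ∃ S, S = SS g n i := ⟨_, rfl⟩
  rw [← hSS] at e2 e4 hS ⊢
  have hm : MeasurableSet {ω | η / 2 * S ≤ UU A g n i ω ^ 2} :=
    measurableSet_le measurable_const
      (((UU_meas n i).mono (FF_le hA _) le_rfl).pow_const 2)
  obtain ⟨α, hα⟩ : ∃ α, α = η ^ 3 / (24 * S) := ⟨_, rfl⟩
  have hα0 : 0 ≤ α := by
    rw [hα]
    positivity
  have I := UU_int (P := P) (g := g) hA n i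
  have hpt : ∀ ω, -(α * (η / 2 * S)) + 0 * UU A g n i ω ^ 1 + α * UU A g n i ω ^ 2 +
      0 * UU A g n i ω ^ 3 + -(α ^ 2 / 4) * UU A g n i ω ^ 4 ≤
      {ω | η / 2 * S ≤ UU A g n i ω ^ 2}.indicator (fun _ => (1 : ℝ)) ω := by
    intro ω
    obtain ⟨W, hW⟩ : ∃ W, W = UU A g n i ω ^ 2 := ⟨_, rfl⟩
    have h4 : UU A g n i ω ^ 4 = W ^ 2 := by
      rw [hW]
      ring
    by_cases h : ω ∈ {ω | η / 2 * S ≤ UU A g n i ω ^ 2}
    · rw [Set.indicator_of_mem h, h4, ← hW]
      have h5 : 0 ≤ α * (η / 2 * S) := by positivity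
      nlinarith [sq_nonneg (α * W / 2 - 1)]
    · rw [Set.indicator_of_notMem h, h4, ← hW]
      have h6 : W < η / 2 * S := by
        rw [hW]
        exact not_le.1 h
      have h7 : α * W ≤ α * (η / 2 * S) := by gcongr
      have h8 : 0 ≤ α ^ 2 / 4 * W ^ 2 := by positivity
      linarith
  have hint := integral_mono (μ := P) (f := fun ω => -(α * (η / 2 * S)) + 0 * UU A g n i ω ^ 1 +
      α * UU A g n i ω ^ 2 + 0 * UU A g n i ω ^ 3 + -(α ^ 2 / 4) * UU A g n i ω ^ 4) ?_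
    ((integrable_const 1).indicator hm) hpt
  · rw [int_poly I, integral_indicator_const _ hm, smul_eq_mul, mul_one] at hint
    refine le_trans ?_ hint
    have h9 : α * (η * S) ≤ α * ∫ ω, UU A g n i ω ^ 2 ∂P := by gcongr
    have h10 : α ^ 2 / 4 * ∫ ω, UU A g n i ω ^ 4 ∂P ≤ α ^ 2 / 4 * (24 * (S / η) ^ 2) := by
      gcongr
    have h11 : α * (η * S) - α * (η / 2 * S) - α ^ 2 / 4 * (24 * (S / η) ^ 2) = η ^ 4 / 96 := by
      rw [hα]
      field_simp
      ring
    linarith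
  · have t2 := (I 2).const_mul α
    have t4 := (I 4).const_mul (-(α ^ 2 / 4))
    have t0 : Integrable (fun _ : Ω => -(α * (η / 2 * S))) P := integrable_const _
    refine ((t0.add t2).add t4).congr (Filter.Eventually.of_forall fun ω => ?_)
    simp only [Pi.add_apply]
    ring

/-- The walk moves far in the direction `s`. -/
theorem pz_sign (hA : ∀ l, MeasurableSet (A l)) (hind : iIndepSet A P) {g : ℕ → ℝ}
    (hg : ∀ l, 0 ≤ g l) {η : ℝ} (h0 : 0 < η) (h1 : η ≤ 1 / 4) {n i : ℕ}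
    (hR : Rg P A η i (i + n)) (hS : 0 < SS g n i) {s : ℝ} (hs : s = 1 ∨ s = -1) :
    η ^ 5 / 192 ≤ P.real {ω | √(η / 2 * SS g n i) ≤ s * UU A g n i ω} := by
  have h2 := pz hA hind hg h0 h1 hR hS
  obtain ⟨n, rfl⟩ : ∃ m, n = m + 1 := by
    rcases n with _ | n
    · rw [SS_zero] at hS
      exact absurd hS (lt_irrefl _)
    · exact ⟨n, rfl⟩
  obtain ⟨T, hT⟩ : ∃ T, T = √(η / 2 * SS g (n + 1) i) := ⟨_, rfl⟩
  have hT0 : 0 ≤ T := by
    rw [hT]
    exact Real.sqrt_nonneg _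
  have hT2 : T ^ 2 = η / 2 * SS g (n + 1) i := by
    rw [hT, Real.sq_sqrt]
    positivity
  rw [← hT2] at h2
  rw [← hT]
  let X : Ω → ℝ := fun ω => g i + UU A g n (i + 1) ω
  have hXm : Measurable[FF A (Set.Ico (i + 1) (i + 1 + n))] X := by
    have h1 := UU_meas (A := A) (g := g) n (i + 1)
    let _ := FF A (Set.Ico (i + 1) (i + 1 + n))
    exact h1.const_add _
  have hU : ∀ ω, UU A g (n + 1) i ω = sg A i ω * X ω := fun ω => rfl
  have hdisj : Disjoint ({i} : Set ℕ) (Set.Ico (i + 1) (i + 1 + n)) := by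
    rw [Set.disjoint_singleton_left]
    simp
  -- one of the two signs
  obtain ⟨τ, hτ, hPτ⟩ : ∃ τ : ℝ, (τ = 1 ∨ τ = -1) ∧ η ^ 4 / 192 ≤ P.real {ω | T ≤ τ * X ω} := by
    by_contra hcon
    push Not at hcon
    have h3 := hcon 1 (Or.inl rfl)
    have h4 := hcon (-1) (Or.inr rfl)
    have h5 : {ω | T ^ 2 ≤ UU A g (n + 1) i ω ^ 2} ⊆
        {ω | T ≤ 1 * X ω} ∪ {ω | T ≤ -1 * X ω} := by
      intro ω hω
      simp only [Set.mem_ofPred_eq, hU, mul_pow, sg_sq, one_mul] at hω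
      simp only [Set.mem_union, Set.mem_ofPred_eq]
      by_contra hc
      push Not at hc
      have h6 : X ω ^ 2 < T ^ 2 := sq_lt_sq' (by linarith [hc.2]) (by linarith [hc.1])
      linarith
    have h6 := (measureReal_mono (μ := P) h5).trans (measureReal_union_le _ _)
    linarith
  have hs2 : s * τ = 1 ∨ s * τ = -1 := by
    rcases hs with rfl | rfl <;> rcases hτ with rfl | rfl <;> norm_num
  have h3 := sg_prob hA hR le_rfl (by omega) hs2
  have hE1 : MeasurableSet[FF A {i}] {ω | sg A i ω = s * τ} := by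
    have h4 : Measurable[FF A {i}] (sg A i) := sg_meas rfl
    exact h4 (measurableSet_singleton _)
  have hE2 : MeasurableSet[FF A (Set.Ico (i + 1) (i + 1 + n))] {ω | T ≤ τ * X ω} := by
    let _ := FF A (Set.Ico (i + 1) (i + 1 + n))
    exact measurableSet_le measurable_const (hXm.const_mul τ)
  have h4 := inter_mul hA hind hdisj hE1 hE2
  have h5 : {ω | sg A i ω = s * τ} ∩ {ω | T ≤ τ * X ω} ⊆
      {ω | T ≤ s * UU A g (n + 1) i ω} := by
    rintro ω ⟨h6, h7⟩
    simp only [Set.mem_ofPred_eq] at h6 h7 ⊢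
    rw [hU, h6]
    have h8 : s * (s * τ * X ω) = τ * X ω := by
      have h9 : s * s = 1 := by rcases hs with rfl | rfl <;> norm_num
      linear_combination (τ * X ω) * h9
    rw [h8]
    exact h7
  have h6 := measureReal_mono (μ := P) h5
  rw [h4] at h6
  refine le_trans ?_ h6
  calc η ^ 5 / 192 = η * (η ^ 4 / 192) := by ring
    _ ≤ _ := mul_le_mul h3 hPτ (by positivity) (by positivity)

end Pool.Agent.Lib.MP_30d2b9_nt
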