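import Mathlib
import Pool.Agent.Lib.MP_30d2b9_nt.Window

/-!
The walk which turns at the points `q i` for which the sign is `-1`.
-/

namespace Pool.Agent.Lib.MP_30d2b9_nt

open MeasureTheory ProbabilityTheory Finset

variable {Ω : Type} [m0 : MeasurableSpace Ω] {A : ℕ → Set Ω} {P : Measure Ω}

/-- Turning points: at most doubling. -/
structure Tp (q : ℕ → ℕ) : Prop where
  mono : StrictMono q
  dbl : ∀ i, q (i + 1) ≤ 2 * q i
  pos : 1 ≤ q 0

/-- The gaps up to `k`. -/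
noncomputable def gk (q : ℕ → ℕ) (k m : ℕ) : ℝ :=
  ((min (q (m + 1)) k : ℕ) : ℝ) - ((min (q m) k : ℕ) : ℝ)

/-- The sum of the squares of the gaps with index in `[i, j)`. -/
noncomputable def Sg (q : ℕ → ℕ) (i j : ℕ) : ℝ := ∑ l ∈ Ico i j, ((q (l + 1) : ℝ) - q l) ^ 2

/-- The direction before index `i`. -/
noncomputable def sgp (A : ℕ → Set Ω) (i : ℕ) (ω : Ω) : ℝ := ∏ l ∈ range i, sg A l ω

section
variable {q : ℕ → ℕ}

theorem gk_nonneg (hq : Tp q) (k m : ℕ) : 0 ≤ gk q k m := by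
  rw [gk, sub_nonneg, Nat.cast_le]
  exact min_le_min_right _ (hq.mono.monotone (Nat.le_succ m))

theorem gk_le (hq : Tp q) (k m : ℕ) : gk q k m ≤ (q (m + 1) : ℝ) - q m := by
  have h1 := hq.mono.monotone (Nat.le_succ m)
  rcases le_total k (q m) with h | h
  · rw [gk, min_eq_right (h.trans h1), min_eq_right h, sub_self, sub_nonneg, Nat.cast_le]
    exact h1
  · rw [gk, min_eq_left h]
    have : ((min (q (m + 1)) k : ℕ) : ℝ) ≤ q (m + 1) := by
      rw [Nat.cast_le]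
      exact min_le_left _ _
    linarith

theorem SS_gk_le (hq : Tp q) (k n i : ℕ) : SS (gk q k) n i ≤ Sg q i (i + n) :=
  sum_le_sum fun m _ => pow_le_pow_left₀ (gk_nonneg hq k m) (gk_le hq k m) 2

theorem SS_gk_eq (hq : Tp q) (n i : ℕ) : SS (gk q (q (i + n))) n i = Sg q i (i + n) := by
  refine sum_congr rfl fun m hm => ?_
  rw [mem_Ico] at hm
  rw [gk, min_eq_left (hq.mono.monotone (by omega)), min_eq_left (hq.mono.monotone (by omega))]

theorem one_le_gap (hq : Tp q) (l : ℕ) : (1 : ℝ) ≤ (q (l + 1) : ℝ) - q l := by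
  have h1 := hq.mono (Nat.lt_succ_self l)
  have h2 : (q l : ℝ) + 1 ≤ q (l + 1) := by exact_mod_cast h1
  linarith

theorem le_Sg (hq : Tp q) {i j : ℕ} (h : i ≤ j) : (j : ℝ) - i ≤ Sg q i j := by
  have h1 : ∑ l ∈ Ico i j, (1 : ℝ) ≤ Sg q i j := by
    refine sum_le_sum fun l _ => ?_
    have := one_le_gap hq l
    nlinarith
  rw [sum_const, Nat.card_Ico, nsmul_eq_mul, mul_one, Nat.cast_sub h] at h1
  exact h1

theorem Sg_nonneg (i j : ℕ) : 0 ≤ Sg q i j := sum_nonneg fun _ _ => sq_nonneg _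

theorem Sg_add {i j l : ℕ} (h1 : i ≤ j) (h2 : j ≤ l) : Sg q i j + Sg q j l = Sg q i l :=
  sum_Ico_consecutive _ h1 h2

theorem Sg_self (i : ℕ) : Sg q i i = 0 := by simp [Sg]

theorem Sg_succ (i : ℕ) : Sg q i (i + 1) = ((q (i + 1) : ℝ) - q i) ^ 2 := by simp [Sg]

theorem Sg_le_sq (hq : Tp q) (j : ℕ) : Sg q 0 j ≤ (q j : ℝ) ^ 2 := by
  induction j with
  | zero =>
    rw [Sg_self]
    positivity
  | succ j ih =>
    rw [← Sg_add (Nat.zero_le j) (Nat.le_succ j), Nat.succ_eq_add_one, Sg_succ]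
    have h1 := one_le_gap hq j
    have h2 : (0 : ℝ) ≤ q j := Nat.cast_nonneg _
    nlinarith

end

omit m0 in
theorem sgp_succ (i : ℕ) (ω : Ω) : sgp A (i + 1) ω = sgp A i ω * sg A i ω :=
  prod_range_succ _ _

omit m0 in
theorem sgp_or (i : ℕ) (ω : Ω) : sgp A i ω = 1 ∨ sgp A i ω = -1 := by
  induction i with
  | zero => exact Or.inl (by simp [sgp])
  | succ i ih =>
    rw [sgp_succ]
    rcases ih with h | h <;> rcases sg_or (A := A) i ω with h' | h' <;> rw [h, h'] <;> norm_num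

omit m0 in
theorem sgp_meas (i : ℕ) : Measurable[FF A (Set.Iio i)] (sgp A i) := by
  let _ := FF A (Set.Iio i)
  have h1 : sgp A i = fun ω => ∏ l ∈ range i, sg A l ω := rfl
  rw [h1]
  refine Finset.measurable_fun_prod _ fun l hl => ?_
  exact sg_meas (by simpa using hl)

/-- The walk. -/
structure Wk (q : ℕ → ℕ) (A : ℕ → Set Ω) (y : ℕ → Ω → ℝ) : Prop where
  gap : ∀ i k ω, q i ≤ k → k ≤ q (i + 1) →
    y k ω = y (q i) ω + sgp A (i + 1) ω * ((k : ℝ) - q i)
  bd : ∀ k ω, |y k ω| ≤ k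

section
variable {q : ℕ → ℕ} {y : ℕ → Ω → ℝ}

omit m0 in
theorem walk_min (hq : Tp q) (hy : Wk q A y) (i k : ℕ) (ω : Ω) :
    y (min (q (i + 1)) k) ω - y (min (q i) k) ω = sgp A (i + 1) ω * gk q k i := by
  have h1 := hq.mono.monotone (Nat.le_succ i)
  rcases le_total k (q i) with h | h
  · rw [gk, min_eq_right (h.trans h1), min_eq_right h]
    simp
  · rw [gk, min_eq_left h, hy.gap i (min (q (i + 1)) k) ω (le_min h1 h) (min_le_left _ _)]
    ring

omit m0 in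
theorem walk_UU (hq : Tp q) (hy : Wk q A y) (n : ℕ) : ∀ (i k : ℕ) (ω : Ω),
    y (min (q (i + n)) k) ω - y (min (q i) k) ω = sgp A i ω * UU A (gk q k) n i ω := by
  induction n with
  | zero =>
    intro i k ω
    rw [UU, add_zero]
    ring
  | succ n ih =>
    intro i k ω
    have h1 := ih (i + 1) k ω
    have h2 := walk_min hq hy i k ω
    have h3 : i + (n + 1) = i + 1 + n := by ring
    rw [h3, UU]
    rw [sgp_succ] at h1 h2
    linear_combination h1 + h2

omit m0 in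
theorem walk_from (hq : Tp q) (hy : Wk q A y) {n i k : ℕ} (h1 : q i ≤ k) (h2 : k ≤ q (i + n))
    (ω : Ω) : y k ω = y (q i) ω + sgp A i ω * UU A (gk q k) n i ω := by
  have h := walk_UU hq hy n i k ω
  rw [min_eq_right h2, min_eq_left h1] at h
  linarith

/-- The window event. -/
def Win (q : ℕ → ℕ) (A : ℕ → Set Ω) (η η₁ K2 s : ℝ) (n i : ℕ) : Set Ω :=
  {ω | √(η / 2 * Sg q i (i + n)) ≤ s * UU A (gk q (q (i + n))) n i ω} ∩
    {ω | ∑ k ∈ Ico (q i) (q (i + n)), UU A (gk q k) n i ω ^ 2 ≤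
      K2 * η₁ * Sg q i (i + n) * ((q (i + n) : ℝ) - q i)}

omit m0 in
theorem Win_meas (η η₁ K2 s : ℝ) (n i : ℕ) :
    MeasurableSet[FF A (Set.Ico i (i + n))] (Win q A η η₁ K2 s n i) := by
  have h1 := fun k => UU_meas (A := A) (g := gk q k) n i
  let _ := FF A (Set.Ico i (i + n))
  refine (measurableSet_le measurable_const ((h1 _).const_mul s)).inter
    (measurableSet_le ?_ measurable_const)
  exact Finset.measurable_fun_sum _ fun k _ => (h1 k).pow_const 2

theorem Win_prob [IsProbabilityMeasure P] (hq : Tp q) (hA : ∀ l, MeasurableSet (A l))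
    (hind : iIndepSet A P) {η : ℝ} (h0 : 0 < η) (h1 : η ≤ 1 / 4) {n i : ℕ}
    (hR : Rg P A η i (i + n)) {s : ℝ} (hs : s = 1 ∨ s = -1) {η₁ K2 : ℝ} (hη₁ : 0 < η₁)
    (hK : K2 = 384 / (η ^ 6 * η₁)) :
    η ^ 5 / 384 ≤ P.real (Win q A η η₁ K2 s n i) := by
  rcases Nat.eq_zero_or_pos n with rfl | hn
  · have h2 : Win q A η η₁ K2 s 0 i = Set.univ := by
      ext ω
      simp [Win, UU, Sg]
    rw [h2, probReal_univ]
    have : η ^ 5 ≤ 1 := pow_le_one₀ h0.le (by linarith)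
    linarith
  have hSpos : 0 < Sg q i (i + n) := by
    have h2 := le_Sg hq (Nat.le_add_right i n)
    push_cast at h2
    have h3 : (1 : ℝ) ≤ n := by exact_mod_cast hn
    linarith
  have hL : 0 < (q (i + n) : ℝ) - q i := by
    have h2 := hq.mono (Nat.lt_add_of_pos_right (n := i) hn)
    have h3 : (q i : ℝ) < q (i + n) := by exact_mod_cast h2
    linarith
  have hK0 : 0 < K2 := by
    rw [hK]
    positivity
  obtain ⟨S, hS⟩ : ∃ S, S = Sg q i (i + n) := ⟨_, rfl⟩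
  obtain ⟨L, hLL⟩ : ∃ L, L = (q (i + n) : ℝ) - q i := ⟨_, rfl⟩
  have e1 := pz_sign hA hind (gk_nonneg hq (q (i + n))) h0 h1 hR (by rwa [SS_gk_eq hq]) hs
  rw [SS_gk_eq hq] at e1
  rw [Win]
  rw [← hS] at hSpos e1 ⊢
  rw [← hLL] at hL ⊢
  have hI : ∀ k, Integrable (fun ω => UU A (gk q k) n i ω ^ 2) P := fun k => UU_int hA n i 2
  have e2 : ∫ ω, ∑ k ∈ Ico (q i) (q (i + n)), UU A (gk q k) n i ω ^ 2 ∂P ≤ L * (S / η) := by
    rw [integral_finsetSum _ fun k _ => hI k]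
    refine (sum_le_sum fun k _ => (second_le hA hind (gk_nonneg hq k) h0 h1 hR).trans
      (div_le_div_of_nonneg_right (SS_gk_le hq k n i) h0.le)).trans ?_
    rw [sum_const, Nat.card_Ico, nsmul_eq_mul, Nat.cast_sub (hq.mono.monotone (by omega)),
      ← hS, ← hLL]
  have e3 := mul_meas_ge_le_integral_of_nonneg (μ := P)
    (f := fun ω => ∑ k ∈ Ico (q i) (q (i + n)), UU A (gk q k) n i ω ^ 2)
    (Filter.Eventually.of_forall fun ω => sum_nonneg fun k _ => sq_nonneg _)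
    (integrable_finsetSum _ fun k _ => hI k) (K2 * η₁ * S * L)
  have e4 : P.real {ω | K2 * η₁ * S * L ≤ ∑ k ∈ Ico (q i) (q (i + n)),
      UU A (gk q k) n i ω ^ 2} ≤ η ^ 5 / 384 := by
    have h2 : K2 * η₁ * S * L * (η ^ 5 / 384) = L * (S / η) := by
      rw [hK]
      field_simp
    have h3 : 0 < K2 * η₁ * S * L := by positivity
    have h4 := e3.trans e2
    rw [← h2] at h4
    exact le_of_mul_le_mul_left h4 h3
  have e5 : {ω | √(η / 2 * S) ≤ s * UU A (gk q (q (i + n))) n i ω} ⊆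
      ({ω | √(η / 2 * S) ≤ s * UU A (gk q (q (i + n))) n i ω} ∩
        {ω | ∑ k ∈ Ico (q i) (q (i + n)), UU A (gk q k) n i ω ^ 2 ≤ K2 * η₁ * S * L}) ∪
      {ω | K2 * η₁ * S * L ≤ ∑ k ∈ Ico (q i) (q (i + n)), UU A (gk q k) n i ω ^ 2} := by
    intro ω hω
    rcases le_total (∑ k ∈ Ico (q i) (q (i + n)), UU A (gk q k) n i ω ^ 2)
      (K2 * η₁ * S * L) with h | h
    · exact Or.inl ⟨hω, h⟩
    · exact Or.inr h
  have e6 := (measureReal_mono (μ := P) e5).trans (measureReal_union_le _ _)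
  linarith

end

end Pool.Agent.Lib.MP_30d2b9_nt
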