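import Mathlib
import Pool.Agent.Lib.MP_30d2b9_nt.Walk

/-!
Chains of windows: the walk stays on one side most of the time.
-/

namespace Pool.Agent.Lib.MP_30d2b9_nt

open MeasureTheory ProbabilityTheory Finset

variable {Ω : Type} [m0 : MeasurableSpace Ω] {A : ℕ → Set Ω} {P : Measure Ω}

/-- Number of points in the interval on the wrong side of the axis. -/
noncomputable def badc (y : ℕ → Ω → ℝ) (s : ℝ) (a b : ℕ) (ω : Ω) : ℕ :=
  open Classical in ((Ico a b).filter fun k => s * y k ω ≤ 0).card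

omit m0 in
theorem badc_add (y : ℕ → Ω → ℝ) (s : ℝ) {a b c : ℕ} (h1 : a ≤ b) (h2 : b ≤ c) (ω : Ω) :
    badc y s a c ω = badc y s a b ω + badc y s b c ω := by
  classical
  unfold badc
  rw [← card_union_of_disjoint, ← filter_union, Ico_union_Ico_eq_Ico h1 h2]
  refine disjoint_filter_filter ?_
  rw [disjoint_left]
  intro x hx hx'
  rw [mem_Ico] at hx hx'
  omega

omit m0 in
theorem badc_zero {y : ℕ → Ω → ℝ} {s : ℝ} {a b : ℕ} {ω : Ω}
    (h : ∀ k, a ≤ k → k < b → 0 < s * y k ω) : badc y s a b ω = 0 := by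
  classical
  unfold badc
  rw [card_eq_zero, filter_eq_empty_iff]
  intro k hk
  rw [mem_Ico] at hk
  exact not_le.2 (h k hk.1 hk.2)

omit m0 in
theorem badc_le (y : ℕ → Ω → ℝ) (s : ℝ) (a b : ℕ) (ω : Ω) : badc y s a b ω ≤ b - a := by
  classical
  unfold badc
  exact (card_filter_le _ _).trans (by rw [Nat.card_Ico])

section
variable {q : ℕ → ℕ} {y : ℕ → Ω → ℝ} [IsProbabilityMeasure P]

/-- Splitting according to the direction. -/
theorem split (hA : ∀ l, MeasurableSet (A l)) (hind : iIndepSet A P) {i : ℕ} {J : Set ℕ}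
    (hJ : Disjoint (Set.Iio i) J) {B E1 E2 : Set Ω} (hB : MeasurableSet[FF A (Set.Iio i)] B)
    (h1 : MeasurableSet[FF A J] E1) (h2 : MeasurableSet[FF A J] E2) {p : ℝ}
    (hp1 : p ≤ P.real E1) (hp2 : p ≤ P.real E2) {J' : Set ℕ} (hi : Set.Iio i ⊆ J')
    (hJ' : J ⊆ J') :
    ∃ E ⊆ B, MeasurableSet[FF A J'] E ∧ p * P.real B ≤ P.real E ∧
      ∀ ω ∈ E, (sgp A i ω = 1 ∧ ω ∈ E1) ∨ (sgp A i ω = -1 ∧ ω ∈ E2) := by
  have hs : ∀ c : ℝ, MeasurableSet[FF A (Set.Iio i)] {ω | sgp A i ω = c} := fun c => by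
    have h3 := sgp_meas (A := A) i
    exact h3 (measurableSet_singleton c)
  have hB1 : ∀ c : ℝ, MeasurableSet[FF A (Set.Iio i)] (B ∩ {ω | sgp A i ω = c}) := fun c =>
    @MeasurableSet.inter _ (FF A (Set.Iio i)) _ _ hB (hs c)
  have hle : ∀ I : Set ℕ, FF A I ≤ m0 := FF_le hA
  have hu : B = (B ∩ {ω | sgp A i ω = 1}) ∪ (B ∩ {ω | sgp A i ω = -1}) := by
    ext ω
    constructor
    · intro hb
      rcases sgp_or (A := A) i ω with h | h
      · exact Or.inl ⟨hb, h⟩
      · exact Or.inr ⟨hb, h⟩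
    · rintro (⟨h, -⟩ | ⟨h, -⟩) <;> exact h
  have hd : Disjoint (B ∩ {ω | sgp A i ω = 1}) (B ∩ {ω | sgp A i ω = -1}) := by
    rw [Set.disjoint_left]
    rintro ω ⟨-, h⟩ ⟨-, h'⟩
    simp only [Set.mem_ofPred_eq] at h h'
    rw [h] at h'
    norm_num at h'
  have hPB : P.real B = P.real (B ∩ {ω | sgp A i ω = 1}) + P.real (B ∩ {ω | sgp A i ω = -1}) := by
    conv_lhs => rw [hu]
    exact measureReal_union hd (hle _ _ (hB1 _))
  refine ⟨(B ∩ {ω | sgp A i ω = 1}) ∩ E1 ∪ (B ∩ {ω | sgp A i ω = -1}) ∩ E2, ?_, ?_, ?_, ?_⟩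
  · rintro ω (⟨⟨h, -⟩, -⟩ | ⟨⟨h, -⟩, -⟩) <;> exact h
  · refine @MeasurableSet.union _ (FF A J') _ _
      (@MeasurableSet.inter _ (FF A J') _ _ (FF_mono hi _ (hB1 _)) (FF_mono hJ' _ h1))
      (@MeasurableSet.inter _ (FF A J') _ _ (FF_mono hi _ (hB1 _)) (FF_mono hJ' _ h2))
  · rw [measureReal_union (hd.mono Set.inter_subset_left Set.inter_subset_left)
      ((hle _ _ (hB1 _)).inter (hle _ _ h2)), inter_mul hA hind hJ (hB1 _) h1,
      inter_mul hA hind hJ (hB1 _) h2, hPB]
    have e1 : P.real (B ∩ {ω | sgp A i ω = 1}) * p ≤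
        P.real (B ∩ {ω | sgp A i ω = 1}) * P.real E1 := by gcongr
    have e2 : P.real (B ∩ {ω | sgp A i ω = -1}) * p ≤
        P.real (B ∩ {ω | sgp A i ω = -1}) * P.real E2 := by gcongr
    linarith
  · rintro ω (⟨⟨-, h⟩, h'⟩ | ⟨⟨-, h⟩, h'⟩)
    · exact Or.inl ⟨h, h'⟩
    · exact Or.inr ⟨h, h'⟩

/-- The data which stay fixed. -/
structure Fix (P : Measure Ω) (A : ℕ → Set Ω) (q : ℕ → ℕ) (y : ℕ → Ω → ℝ)
    (η η₁ K2 κ β s : ℝ) : Prop where
  hq : Tp q
  hy : Wk q A y
  hA : ∀ l, MeasurableSet (A l)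
  hind : iIndepSet A P
  h0 : 0 < η
  h1 : η ≤ 1 / 4
  hη₁ : 0 < η₁
  hK : K2 = 384 / (η ^ 6 * η₁)
  hκ : κ = √(η / 2) / 2
  hβ : β = κ ^ 2 / K2
  hs : s = 1 ∨ s = -1

variable {η η₁ K2 κ β s : ℝ}

omit [IsProbabilityMeasure P] in
theorem Fix.hs2 (X : Fix P A q y η η₁ K2 κ β s) : s * s = 1 := by
  rcases X.hs with h | h <;> rw [h] <;> norm_num

omit [IsProbabilityMeasure P] in
theorem Fix.κ0 (X : Fix P A q y η η₁ K2 κ β s) : 0 < κ := by
  rw [X.hκ]
  have := X.h0
  positivity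

omit [IsProbabilityMeasure P] in
theorem Fix.κ1 (X : Fix P A q y η η₁ K2 κ β s) : κ ≤ 1 := by
  rw [X.hκ]
  have h1 : √(η / 2) ≤ 1 := by
    rw [Real.sqrt_le_one]
    linarith [X.h1]
  linarith

omit [IsProbabilityMeasure P] in
theorem Fix.K0 (X : Fix P A q y η η₁ K2 κ β s) : 0 < K2 := by
  rw [X.hK]
  have := X.h0
  have := X.hη₁
  positivity

omit [IsProbabilityMeasure P] in
theorem Fix.β0 (X : Fix P A q y η η₁ K2 κ β s) : 0 < β := by
  rw [X.hβ]
  have := X.κ0
  have := X.K0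
  positivity

omit [IsProbabilityMeasure P] in
theorem Fix.sqrt_mul (X : Fix P A q y η η₁ K2 κ β s) (S : ℝ) :
    √(η / 2 * S) = 2 * κ * √S := by
  rw [Real.sqrt_mul (by linarith [X.h0]), X.hκ]
  ring

/-- The window in the direction `s`, whatever the direction before it. -/
theorem win_step (X : Fix P A q y η η₁ K2 κ β s) {i n : ℕ} (hR : Rg P A η i (i + n))
    {B : Set Ω} (hB : MeasurableSet[FF A (Set.Iio i)] B) :
    ∃ E ⊆ B, MeasurableSet[FF A (Set.Iio (i + n))] E ∧ η ^ 5 / 384 * P.real B ≤ P.real E ∧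
      ∀ ω ∈ E, s * y (q i) ω + 2 * κ * √(Sg q i (i + n)) ≤ s * y (q (i + n)) ω ∧
        ∑ k ∈ Ico (q i) (q (i + n)), (y k ω - y (q i) ω) ^ 2 ≤
          K2 * η₁ * Sg q i (i + n) * ((q (i + n) : ℝ) - q i) := by
  have hs' : -s = 1 ∨ -s = -1 := by rcases X.hs with h | h <;> rw [h] <;> norm_num
  obtain ⟨E, hEB, hEm, hEP, hE⟩ := split X.hA X.hind (J := Set.Ico i (i + n))
    (J' := Set.Iio (i + n)) (by
      rw [Set.disjoint_left]
      intro x h1 h2
      simp only [Set.mem_Iio, Set.mem_Ico] at h1 h2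
      omega) hB (Win_meas (q := q) η η₁ K2 s n i) (Win_meas (q := q) η η₁ K2 (-s) n i)
    (Win_prob X.hq X.hA X.hind X.h0 X.h1 hR X.hs X.hη₁ X.hK)
    (Win_prob X.hq X.hA X.hind X.h0 X.h1 hR hs' X.hη₁ X.hK)
    (fun x hx => by
      simp only [Set.mem_Iio] at hx ⊢
      omega)
    (fun x hx => by
      simp only [Set.mem_Iio, Set.mem_Ico] at hx ⊢
      omega)
  refine ⟨E, hEB, hEm, hEP, fun ω hω => ?_⟩
  have hk : ∀ k ∈ Ico (q i) (q (i + n)), (y k ω - y (q i) ω) ^ 2 = UU A (gk q k) n i ω ^ 2 := by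
    intro k hk
    rw [mem_Ico] at hk
    rw [walk_from X.hq X.hy hk.1 hk.2.le ω]
    rcases sgp_or (A := A) i ω with h | h <;> rw [h] <;> ring
  have hend := walk_from X.hq X.hy (X.hq.mono.monotone (Nat.le_add_right i n)) le_rfl ω
  rw [sum_congr rfl hk, hend, ← X.sqrt_mul]
  rcases hE ω hω with ⟨h, h1, h2⟩ | ⟨h, h1, h2⟩
  · refine ⟨?_, h2⟩
    simp only [Set.mem_ofPred_eq] at h1
    rw [h]
    linarith
  · refine ⟨?_, h2⟩
    simp only [Set.mem_ofPred_eq] at h1
    rw [h]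
    linarith

/-- One gap in the direction `s`. -/
theorem gap_step (X : Fix P A q y η η₁ K2 κ β s) {j : ℕ} (hR : Rg P A η j (j + 1))
    {B : Set Ω} (hB : MeasurableSet[FF A (Set.Iio j)] B) :
    ∃ E ⊆ B, MeasurableSet[FF A (Set.Iio (j + 1))] E ∧ η * P.real B ≤ P.real E ∧
      ∀ ω ∈ E, ∀ k, q j ≤ k → k ≤ q (j + 1) →
        s * y k ω = s * y (q j) ω + ((k : ℝ) - q j) := by
  have hs' : -s = 1 ∨ -s = -1 := by rcases X.hs with h | h <;> rw [h] <;> norm_num
  have hm : ∀ c : ℝ, MeasurableSet[FF A {j}] {ω | sg A j ω = c} := fun c => by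
    have h4 : Measurable[FF A {j}] (sg A j) := sg_meas rfl
    exact h4 (measurableSet_singleton c)
  obtain ⟨E, hEB, hEm, hEP, hE⟩ := split X.hA X.hind (J := {j}) (J' := Set.Iio (j + 1)) (by
      rw [Set.disjoint_singleton_right]
      simp) hB (hm s) (hm (-s)) (sg_prob X.hA hR le_rfl (Nat.lt_succ_self j) X.hs)
    (sg_prob X.hA hR le_rfl (Nat.lt_succ_self j) hs')
    (fun x hx => by
      simp only [Set.mem_Iio] at hx ⊢
      omega)
    (fun x hx => by
      simp only [Set.mem_Iio, Set.mem_singleton_iff] at hx ⊢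
      omega)
  refine ⟨E, hEB, hEm, hEP, fun ω hω k h1 h2 => ?_⟩
  have h3 : sgp A (j + 1) ω = s := by
    rw [sgp_succ]
    rcases hE ω hω with ⟨h, h4⟩ | ⟨h, h4⟩
    · simp only [Set.mem_ofPred_eq] at h4
      rw [h, h4, one_mul]
    · simp only [Set.mem_ofPred_eq] at h4
      rw [h, h4, neg_one_mul, neg_neg]
  rw [X.hy.gap j k ω h1 h2, h3, mul_add, ← mul_assoc, X.hs2, one_mul]

omit [IsProbabilityMeasure P] in
/-- The number of points on the wrong side during a window. -/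
theorem bad_win (X : Fix P A q y η η₁ K2 κ β s) {i n : ℕ} {G : ℝ} (hG : 0 < G)
    (hS : Sg q i (i + n) ≤ β * G) {ω : Ω} (h1 : κ * √G ≤ s * y (q i) ω)
    (h2 : ∑ k ∈ Ico (q i) (q (i + n)), (y k ω - y (q i) ω) ^ 2 ≤
          K2 * η₁ * Sg q i (i + n) * ((q (i + n) : ℝ) - q i)) :
    (badc y s (q i) (q (i + n)) ω : ℝ) ≤ η₁ * ((q (i + n) : ℝ) - q i) := by
  classical
  have hL : 0 ≤ (q (i + n) : ℝ) - q i := by
    rw [sub_nonneg, Nat.cast_le]
    exact X.hq.mono.monotone (Nat.le_add_right i n)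
  have hκ := X.κ0
  have h3 : (badc y s (q i) (q (i + n)) ω : ℝ) * (κ ^ 2 * G) ≤
      ∑ k ∈ Ico (q i) (q (i + n)), (y k ω - y (q i) ω) ^ 2 := by
    unfold badc
    calc _ = ∑ k ∈ (Ico (q i) (q (i + n))).filter (fun k => s * y k ω ≤ 0), κ ^ 2 * G := by
          rw [sum_const, nsmul_eq_mul]
      _ ≤ ∑ k ∈ (Ico (q i) (q (i + n))).filter (fun k => s * y k ω ≤ 0),
          (y k ω - y (q i) ω) ^ 2 := by
          refine sum_le_sum fun k hk => ?_
          rw [mem_filter] at hk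
          have h4 : κ * √G ≤ s * (y (q i) ω - y k ω) := by
            have := hk.2
            linarith
          have h5 : 0 ≤ κ * √G := by positivity
          have h6 := pow_le_pow_left₀ h5 h4 2
          rw [mul_pow, mul_pow, Real.sq_sqrt hG.le] at h6
          have h7 : s ^ 2 = 1 := by
            rw [sq]
            exact X.hs2
          rw [h7] at h6
          linarith
      _ ≤ _ := sum_le_sum_of_subset_of_nonneg (filter_subset _ _) fun _ _ _ => sq_nonneg _
  have h4 : K2 * η₁ * Sg q i (i + n) * ((q (i + n) : ℝ) - q i) ≤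
      K2 * η₁ * (β * G) * ((q (i + n) : ℝ) - q i) := by
    have := X.K0
    have := X.hη₁
    gcongr
  have h5 : K2 * η₁ * (β * G) * ((q (i + n) : ℝ) - q i) =
      η₁ * ((q (i + n) : ℝ) - q i) * (κ ^ 2 * G) := by
    have := X.K0
    rw [X.hβ]
    field_simp
  have h6 := h3.trans (h2.trans h4)
  rw [h5] at h6
  exact le_of_mul_le_mul_right h6 (by positivity)

/-- A chain of windows. -/
theorem chain (X : Fix P A q y η η₁ K2 κ β s) (M : ℕ) : ∀ i b : ℕ, i ≤ b → Rg P A η i b →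
    0 < Sg q 0 i → Sg q 0 b ≤ (1 + β) ^ M * Sg q 0 i →
    ∀ B : Set Ω, MeasurableSet[FF A (Set.Iio i)] B →
    (∀ ω ∈ B, κ * √(Sg q 0 i) ≤ s * y (q i) ω) →
    ∃ E ⊆ B, MeasurableSet[FF A (Set.Iio b)] E ∧
      (η ^ 6 / 384) ^ (M + 1) * P.real B ≤ P.real E ∧
      ∀ ω ∈ E, (badc y s (q i) (q b) ω : ℝ) ≤ η₁ * ((q b : ℝ) - q i) := by
  have hη := X.h0
  have hc1 : η ^ 6 / 384 ≤ 1 := by
    have : η ^ 6 ≤ 1 := pow_le_one₀ hη.le (by linarith [X.h1])
    linarith
  have hc0 : 0 < η ^ 6 / 384 := by positivity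
  induction M with
  | zero =>
    intro i b hib hR hG hGb B hB hBy
    rw [pow_zero, one_mul] at hGb
    have h1 := Sg_add (q := q) (Nat.zero_le i) hib
    have h2 := le_Sg X.hq hib
    have h3 : b = i := by
      have h4 : (b : ℝ) ≤ i := by linarith
      have h5 : b ≤ i := by exact_mod_cast h4
      omega
    subst h3
    refine ⟨B, subset_rfl, hB, ?_, fun ω _ => ?_⟩
    · rw [zero_add, pow_one]
      exact mul_le_of_le_one_left measureReal_nonneg hc1
    · have h6 := badc_le y s (q b) (q b) ω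
      have h7 : badc y s (q b) (q b) ω = 0 := by omega
      rw [h7, Nat.cast_zero, sub_self, mul_zero]
  | succ M ih =>
    intro i b hib hR hG hGb B hB hBy
    by_cases hS : Sg q i b ≤ β * Sg q 0 i
    · obtain ⟨n, rfl⟩ := Nat.exists_eq_add_of_le hib
      obtain ⟨E, hEB, hEm, hEP, hE⟩ := win_step X hR hB
      refine ⟨E, hEB, hEm, le_trans ?_ hEP, fun ω hω => ?_⟩
      · refine mul_le_mul_of_nonneg_right ?_ measureReal_nonneg
        rw [pow_succ]
        calc (η ^ 6 / 384) ^ (M + 1) * (η ^ 6 / 384) ≤ 1 * (η ^ 6 / 384) :=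
              mul_le_mul_of_nonneg_right (pow_le_one₀ hc0.le hc1) hc0.le
          _ = η * (η ^ 5 / 384) := by ring
          _ ≤ 1 * (η ^ 5 / 384) := by
              refine mul_le_mul_of_nonneg_right ?_ (by positivity)
              linarith [X.h1]
          _ = _ := one_mul _
      · exact bad_win X hG hS (hBy ω (hEB hω)) (hE ω hω).2
    · push Not at hS
      have hex : ∃ j, β * Sg q 0 i < Sg q i j := ⟨b, hS⟩
      obtain ⟨j', hj1, hj2⟩ : ∃ j', β * Sg q 0 i < Sg q i j' ∧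
          ∀ j, j < j' → Sg q i j ≤ β * Sg q 0 i := by
        classical
        exact ⟨Nat.find hex, Nat.find_spec hex, fun j hj => not_lt.1 (Nat.find_min hex hj)⟩
      have hβ := X.β0
      have hij : i < j' := by
        by_contra hcon
        have h1 : Sg q i j' = 0 := by
          rw [Sg, Ico_eq_empty_of_le (not_lt.1 hcon), sum_empty]
        rw [h1] at hj1
        have : 0 < β * Sg q 0 i := by positivity
        linarith
      have hjb : j' ≤ b := by
        by_contra hcon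
        have := hj2 b (not_le.1 hcon)
        linarith
      obtain ⟨n, rfl⟩ : ∃ n, j' = i + n + 1 := ⟨j' - i - 1, by omega⟩
      have hSn := hj2 (i + n) (by omega)
      obtain ⟨E, hEB, hEm, hEP, hE⟩ := win_step X (hR.mono le_rfl (by omega)) hB (n := n)
      obtain ⟨E', hEB', hEm', hEP', hE'⟩ := gap_step X (hR.mono (by omega) hjb) hEm
      have hG' : Sg q 0 (i + n + 1) = Sg q 0 i + Sg q i (i + n) +
          ((q (i + n + 1) : ℝ) - q (i + n)) ^ 2 := by
        rw [← Sg_succ, ← Sg_add (q := q) (Nat.zero_le (i + n)) (Nat.le_succ (i + n)),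
          ← Sg_add (q := q) (Nat.zero_le i) (Nat.le_add_right i n)]
      have hG'' : Sg q 0 (i + n + 1) = Sg q 0 i + Sg q i (i + n + 1) :=
        (Sg_add (q := q) (Nat.zero_le i) (by omega)).symm
      have hgap := one_le_gap X.hq (i + n)
      have hκ0 := X.κ0
      have hκ1 := X.κ1
      obtain ⟨E3, hEB3, hEm3, hEP3, hE3⟩ := ih (i + n + 1) b hjb (hR.mono (by omega) le_rfl)
        (by
          rw [hG'']
          have : 0 ≤ Sg q i (i + n + 1) := Sg_nonneg _ _
          linarith)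
        (by
          refine hGb.trans ?_
          rw [pow_succ, mul_assoc]
          refine mul_le_mul_of_nonneg_left ?_ (by positivity)
          rw [hG'']
          linarith) E' hEm' (by
          intro ω hω
          have h1 := (hE ω (hEB' hω)).1
          have h2 := hE' ω hω (q (i + n + 1)) (X.hq.mono.monotone (by omega)) le_rfl
          have h3 := hBy ω (hEB (hEB' hω))
          rw [h2]
          have h4 : √(Sg q 0 (i + n + 1)) ≤ √(Sg q 0 i) + √(Sg q i (i + n)) +
              ((q (i + n + 1) : ℝ) - q (i + n)) := by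
            rw [Real.sqrt_le_left (by positivity), hG']
            have e1 := Real.sq_sqrt (Sg_nonneg (q := q) 0 i)
            have e2 := Real.sq_sqrt (Sg_nonneg (q := q) i (i + n))
            have e3 := Real.sqrt_nonneg (Sg q 0 i)
            have e4 := Real.sqrt_nonneg (Sg q i (i + n))
            nlinarith [mul_nonneg e3 e4, mul_nonneg e3 (by linarith : (0 : ℝ) ≤
              (q (i + n + 1) : ℝ) - q (i + n)), mul_nonneg e4 (by linarith : (0 : ℝ) ≤
              (q (i + n + 1) : ℝ) - q (i + n))]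
          have e4 := Real.sqrt_nonneg (Sg q i (i + n))
          calc κ * √(Sg q 0 (i + n + 1)) ≤ κ * (√(Sg q 0 i) + √(Sg q i (i + n)) +
                ((q (i + n + 1) : ℝ) - q (i + n))) := by gcongr
            _ = κ * √(Sg q 0 i) + κ * √(Sg q i (i + n)) +
                κ * ((q (i + n + 1) : ℝ) - q (i + n)) := by ring
            _ ≤ _ := by
                have e5 : 0 ≤ κ * √(Sg q i (i + n)) := by positivity
                have e6 : κ * ((q (i + n + 1) : ℝ) - q (i + n)) ≤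
                    1 * ((q (i + n + 1) : ℝ) - q (i + n)) :=
                  mul_le_mul_of_nonneg_right hκ1 (by linarith)
                linarith)
      refine ⟨E3, hEB3.trans (hEB'.trans hEB), hEm3, ?_, fun ω hω => ?_⟩
      · refine le_trans ?_ hEP3
        rw [pow_succ, mul_assoc]
        refine mul_le_mul_of_nonneg_left ?_ (by positivity)
        refine le_trans ?_ hEP'
        calc η ^ 6 / 384 * P.real B = η * (η ^ 5 / 384 * P.real B) := by ring
          _ ≤ _ := mul_le_mul_of_nonneg_left hEP hη.le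
      · have h1 := hE3 ω hω
        have h2 := hE ω (hEB' (hEB3 hω))
        have h3 := hBy ω (hEB (hEB' (hEB3 hω)))
        have h4 := bad_win X hG hSn h3 h2.2
        have h5 := hE' ω (hEB3 hω)
        have h6 : badc y s (q (i + n)) (q (i + n + 1)) ω = 0 := by
          refine badc_zero fun k hk1 hk2 => ?_
          rw [h5 k hk1 hk2.le]
          have e1 : (q (i + n) : ℝ) ≤ k := by exact_mod_cast hk1
          have e2 : 0 < κ * √(Sg q 0 i) := by positivity
          have e3 : 0 ≤ 2 * κ * √(Sg q i (i + n)) := by positivity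
          have e4 := h2.1
          linarith
        have hm1 : q i ≤ q (i + n) := X.hq.mono.monotone (by omega)
        have hm2 : q (i + n) ≤ q (i + n + 1) := X.hq.mono.monotone (by omega)
        have hm3 : q (i + n + 1) ≤ q b := X.hq.mono.monotone hjb
        rw [badc_add y s (hm1.trans hm2) hm3, badc_add y s hm1 hm2, h6, add_zero]
        push_cast
        have hη₁ := X.hη₁
        have e1 : 0 ≤ η₁ * ((q (i + n + 1) : ℝ) - q (i + n)) := by
          refine mul_nonneg hη₁.le ?_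
          linarith
        linarith

end

end Pool.Agent.Lib.MP_30d2b9_nt
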