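import Mathlib
import Pool.Agent.Lib.MP_30d2b9_nt.Chain

/-!
Almost surely the walk is infinitely often almost always on a given side of the axis.
-/

namespace Pool.Agent.Lib.MP_30d2b9_nt

open MeasureTheory ProbabilityTheory Finset Filter Topology

/-- Infinitely often the sum of the squares of the gaps grows moderately. -/
theorem exists_scale {q : ℕ → ℕ} (hq : Tp q) {ε : ℝ} (h0 : 0 < ε) (h1 : ε < 1) (a₁ : ℕ) :
    ∃ a, a₁ ≤ a ∧ ∃ b, a ≤ b ∧ (q a : ℝ) ≤ ε * q b ∧ Sg q 0 b ≤ 8 / ε ^ 2 * Sg q 0 a := by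
  by_contra hcon
  push Not at hcon
  obtain ⟨a₂, ha₂⟩ : ∃ a₂, a₂ = max a₁ 1 := ⟨_, rfl⟩
  have h2 : a₁ ≤ a₂ := ha₂ ▸ le_max_left _ _
  have h3 : 1 ≤ a₂ := ha₂ ▸ le_max_right _ _
  have hqpos : ∀ a, (0 : ℝ) < q a := fun a => by
    have h4 := hq.mono.monotone (Nat.zero_le a)
    have h5 := hq.pos
    exact_mod_cast (by omega : 0 < q a)
  have hG : 0 < Sg q 0 a₂ := by
    have h4 := le_Sg hq (Nat.zero_le a₂)
    have h5 : (1 : ℝ) ≤ a₂ := by exact_mod_cast h3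
    push_cast at h4
    linarith
  have key : ∀ t : ℕ, ∃ a, a₂ ≤ a ∧ (q a : ℝ) ≤ (2 / ε) ^ t * q a₂ ∧
      (8 / ε ^ 2) ^ t * Sg q 0 a₂ ≤ Sg q 0 a := by
    intro t
    induction t with
    | zero => exact ⟨a₂, le_rfl, by simp, by simp⟩
    | succ t ih =>
      obtain ⟨a, ha1, ha2, ha3⟩ := ih
      have hex : ∃ b, (q a : ℝ) ≤ ε * q b := by
        obtain ⟨n, hn⟩ := exists_nat_ge ((q a : ℝ) / ε)
        refine ⟨n, ?_⟩
        have h4 : (n : ℝ) ≤ q n := by exact_mod_cast hq.mono.le_apply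
        rw [div_le_iff₀ h0] at hn
        nlinarith
      classical
      obtain ⟨b, hb1, hb2⟩ : ∃ b, (q a : ℝ) ≤ ε * q b ∧ ∀ b' < b, ¬ (q a : ℝ) ≤ ε * q b' :=
        ⟨Nat.find hex, Nat.find_spec hex, fun b' hb' => Nat.find_min hex hb'⟩
      have hab : a < b := by
        by_contra hc
        have h4 : (q b : ℝ) ≤ q a := by exact_mod_cast hq.mono.monotone (not_lt.1 hc)
        have h5 := hqpos a
        have h6 := hqpos b
        nlinarith
      obtain ⟨b, rfl⟩ : ∃ b', b = b' + 1 := ⟨b - 1, by omega⟩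
      have h4 := hb2 b (Nat.lt_succ_self b)
      have h5 : (q (b + 1) : ℝ) ≤ 2 * q b := by exact_mod_cast hq.dbl b
      refine ⟨b + 1, by omega, ?_, ?_⟩
      · rw [pow_succ]
        have h6 : (q (b + 1) : ℝ) ≤ 2 / ε * q a := by
          rw [div_mul_eq_mul_div, le_div_iff₀ h0]
          nlinarith
        calc (q (b + 1) : ℝ) ≤ 2 / ε * q a := h6
          _ ≤ 2 / ε * ((2 / ε) ^ t * q a₂) := by gcongr
          _ = _ := by ring
      · have h6 := hcon a (h2.trans ha1) (b + 1) hab.le hb1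
        rw [pow_succ]
        calc (8 / ε ^ 2) ^ t * (8 / ε ^ 2) * Sg q 0 a₂ =
              8 / ε ^ 2 * ((8 / ε ^ 2) ^ t * Sg q 0 a₂) := by ring
          _ ≤ 8 / ε ^ 2 * Sg q 0 a := by gcongr
          _ ≤ _ := h6.le
  obtain ⟨t, ht⟩ := pow_unbounded_of_one_lt ((q a₂ : ℝ) ^ 2 / Sg q 0 a₂) (one_lt_two (α := ℝ))
  obtain ⟨a, -, ha2, ha3⟩ := key t
  have h4 := Sg_le_sq hq a
  have h5 : (q a : ℝ) ^ 2 ≤ ((2 / ε) ^ t * q a₂) ^ 2 :=
    pow_le_pow_left₀ (hqpos a).le ha2 2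
  have h6 : ((2 / ε) ^ t * q a₂) ^ 2 = (4 / ε ^ 2) ^ t * (q a₂ : ℝ) ^ 2 := by
    rw [mul_pow, ← pow_mul, mul_comm t 2, pow_mul, div_pow]
    norm_num
  have h7 : (8 / ε ^ 2) ^ t = 2 ^ t * (4 / ε ^ 2) ^ t := by
    rw [← mul_pow]
    congr 1
    ring
  rw [h7] at ha3
  rw [h6] at h5
  rw [div_lt_iff₀ hG] at ht
  have h8 : 0 < (4 / ε ^ 2) ^ t := by positivity
  have h9 : (4 / ε ^ 2) ^ t * (2 ^ t * Sg q 0 a₂) ≤ (4 / ε ^ 2) ^ t * (q a₂ : ℝ) ^ 2 := by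
    linarith
  have h10 := le_of_mul_le_mul_left h9 h8
  linarith

/-- The hypotheses on the walk. -/
structure Md {Ω : Type} [MeasurableSpace Ω] (P : Measure Ω) (A : ℕ → Set Ω) (q : ℕ → ℕ)
    (y : ℕ → Ω → ℝ) : Prop where
  hy : Wk q A y
  hA : ∀ l, MeasurableSet (A l)
  hind : iIndepSet A P

/-- One block. -/
theorem core {q : ℕ → ℕ} (hq : Tp q) {η ε : ℝ} (h0 : 0 < η) (h1 : η ≤ 1 / 4) (hε0 : 0 < ε)
    (hε1 : ε ≤ 1) : ∃ c : ℝ, 0 < c ∧ c ≤ 1 ∧ ∀ N : ℕ, ∃ N' : ℕ, N < N' ∧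
      ∀ (Ω : Type) (_ : MeasurableSpace Ω) (P : Measure Ω) (_ : IsProbabilityMeasure P)
        (A : ℕ → Set Ω) (y : ℕ → Ω → ℝ), Md P A q y → Rg P A η N N' →
        ∀ s : ℝ, (s = 1 ∨ s = -1) → ∀ B : Set Ω, MeasurableSet[FF A (Set.Iio N)] B →
          ∃ E ⊆ B, MeasurableSet[FF A (Set.Iio N')] E ∧ c * P.real B ≤ P.real E ∧
            ∀ ω ∈ E, (badc y s 0 (q N') ω : ℝ) ≤ ε * q N' := by
  obtain ⟨κ, hκ⟩ : ∃ κ, κ = √(η / 2) / 2 := ⟨_, rfl⟩
  obtain ⟨K2, hK⟩ : ∃ K2, K2 = 384 / (η ^ 6 * (ε / 2)) := ⟨_, rfl⟩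
  obtain ⟨β, hβ⟩ : ∃ β, β = κ ^ 2 / K2 := ⟨_, rfl⟩
  have hκ0 : 0 < κ := by
    rw [hκ]
    positivity
  have hK0 : 0 < K2 := by
    rw [hK]
    positivity
  have hβ0 : 0 < β := by
    rw [hβ]
    positivity
  obtain ⟨M, hM⟩ := pow_unbounded_of_one_lt (8 / (ε / 2) ^ 2) (show (1 : ℝ) < 1 + β by linarith)
  refine ⟨(η ^ 6 / 384) ^ (M + 1) * (η ^ 5 / 384), by positivity, ?_, fun N => ?_⟩
  · have e1 : η ^ 6 / 384 ≤ 1 := by
      have : η ^ 6 ≤ 1 := pow_le_one₀ h0.le (by linarith)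
      linarith
    have e2 : η ^ 5 / 384 ≤ 1 := by
      have : η ^ 5 ≤ 1 := pow_le_one₀ h0.le (by linarith)
      linarith
    exact mul_le_one₀ (pow_le_one₀ (by positivity) e1) (by positivity) e2
  obtain ⟨R, hR⟩ : ∃ R, R = ((q N + κ * √(Sg q 0 N)) / κ) ^ 2 := ⟨_, rfl⟩
  obtain ⟨a, ha, b, hab, hqab, hGab⟩ := exists_scale hq (half_pos hε0) (by linarith)
    (N + ⌈R⌉₊ + 1)
  have hN' : N < b := by omega
  refine ⟨b, hN', ?_⟩
  intro Ω mΩ P iP A y X hRg s hs B hB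
  have XF : Fix P A q y η (ε / 2) K2 κ β s :=
    ⟨hq, X.hy, X.hA, X.hind, h0, h1, half_pos hε0, hK, hκ, hβ, hs⟩
  obtain ⟨n, rfl⟩ := Nat.exists_eq_add_of_le (show N ≤ a by omega)
  obtain ⟨E, hEB, hEm, hEP, hE⟩ := win_step XF (hRg.mono le_rfl hab) hB
  have hGa : Sg q 0 (N + n) = Sg q 0 N + Sg q N (N + n) :=
    (Sg_add (q := q) (Nat.zero_le N) (Nat.le_add_right N n)).symm
  have hSR : R ≤ Sg q N (N + n) := by
    have h2 := le_Sg hq (Nat.le_add_right N n)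
    have h3 := Nat.le_ceil R
    have h4 : ((⌈R⌉₊ : ℕ) : ℝ) ≤ n := by exact_mod_cast (by omega : ⌈R⌉₊ ≤ n)
    push_cast at h2
    linarith
  have hGpos : 0 < Sg q 0 (N + n) := by
    have h2 := le_Sg hq (Nat.zero_le (N + n))
    have h3 : (1 : ℝ) ≤ ((N + n : ℕ) : ℝ) := by exact_mod_cast (by omega : 1 ≤ N + n)
    rw [Nat.cast_zero, sub_zero] at h2
    linarith
  have hκS : q N + κ * √(Sg q 0 N) ≤ κ * √(Sg q N (N + n)) := by
    have h2 : (q N + κ * √(Sg q 0 N)) / κ ≤ √(Sg q N (N + n)) := by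
      refine Real.le_sqrt_of_sq_le ?_
      rw [← hR]
      exact hSR
    rw [div_le_iff₀ hκ0] at h2
    linarith
  obtain ⟨E', hEB', hEm', hEP', hE'⟩ := chain XF M (N + n) b hab (hRg.mono (by omega) le_rfl)
    hGpos (hGab.trans (mul_le_mul_of_nonneg_right hM.le hGpos.le)) E hEm (by
      intro ω hω
      have h2 := (hE ω hω).1
      have h3 : -(q N : ℝ) ≤ s * y (q N) ω := by
        have h4 := abs_le.1 (X.hy.bd (q N) ω)
        rcases hs with rfl | rfl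
        · linarith [h4.1]
        · linarith [h4.2]
      have h4 : √(Sg q 0 (N + n)) ≤ √(Sg q 0 N) + √(Sg q N (N + n)) := by
        rw [Real.sqrt_le_left (by positivity), hGa]
        have e1 := Real.sq_sqrt (Sg_nonneg (q := q) 0 N)
        have e2 := Real.sq_sqrt (Sg_nonneg (q := q) N (N + n))
        have e3 := Real.sqrt_nonneg (Sg q 0 N)
        have e4 := Real.sqrt_nonneg (Sg q N (N + n))
        nlinarith [mul_nonneg e3 e4]
      have h5 : κ * √(Sg q 0 (N + n)) ≤ κ * (√(Sg q 0 N) + √(Sg q N (N + n))) := by gcongr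
      linarith)
  refine ⟨E', hEB'.trans hEB, hEm', ?_, fun ω hω => ?_⟩
  · refine le_trans ?_ hEP'
    rw [mul_assoc]
    exact mul_le_mul_of_nonneg_left hEP (by positivity)
  · have h2 := hE' ω hω
    have h3 := badc_le y s 0 (q (N + n)) ω
    rw [badc_add y s (Nat.zero_le (q (N + n))) (hq.mono.monotone hab)]
    push_cast
    have h4 : (badc y s 0 (q (N + n)) ω : ℝ) ≤ q (N + n) := by exact_mod_cast h3
    have h5 : (0 : ℝ) ≤ q (N + n) := Nat.cast_nonneg _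
    have h6 : 0 ≤ ε / 2 * (q (N + n) : ℝ) := by positivity
    linarith

/-- Many blocks. -/
theorem iter {q : ℕ → ℕ} (hq : Tp q) {η ε : ℝ} (h0 : 0 < η) (h1 : η ≤ 1 / 4) (hε0 : 0 < ε)
    (hε1 : ε ≤ 1) {γ : ℝ} (hγ : 0 < γ) (N : ℕ) : ∃ N' : ℕ, N < N' ∧
      ∀ (Ω : Type) (_ : MeasurableSpace Ω) (P : Measure Ω) (_ : IsProbabilityMeasure P)
        (A : ℕ → Set Ω) (y : ℕ → Ω → ℝ), Md P A q y → Rg P A η N N' →
        ∀ s : ℝ, (s = 1 ∨ s = -1) →
          ∃ F : Set Ω, P.real F ≤ γ ∧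
            ∀ ω, ω ∉ F → ∃ m, N ≤ m ∧ (badc y s 0 (q m) ω : ℝ) ≤ ε * q m := by
  obtain ⟨c, hc0, hc1, hc⟩ := core hq h0 h1 hε0 hε1
  have key : ∀ r : ℕ, ∃ N' : ℕ, N + r ≤ N' ∧
      ∀ (Ω : Type) (_ : MeasurableSpace Ω) (P : Measure Ω) (_ : IsProbabilityMeasure P)
        (A : ℕ → Set Ω) (y : ℕ → Ω → ℝ), Md P A q y → Rg P A η N N' →
        ∀ s : ℝ, (s = 1 ∨ s = -1) →
          ∃ F : Set Ω, MeasurableSet[FF A (Set.Iio N')] F ∧ P.real F ≤ (1 - c) ^ r ∧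
            ∀ ω, ω ∉ F → ∃ m, N ≤ m ∧ (badc y s 0 (q m) ω : ℝ) ≤ ε * q m := by
    intro r
    induction r with
    | zero =>
      refine ⟨N, le_rfl, ?_⟩
      intro Ω mΩ P iP A y X hRg s hs
      exact ⟨Set.univ, MeasurableSet.univ, by simp, fun ω hω => absurd (Set.mem_univ ω) hω⟩
    | succ r ih =>
      obtain ⟨N1, hN1, H1⟩ := ih
      obtain ⟨N2, hN2, H2⟩ := hc N1
      refine ⟨N2, by omega, ?_⟩
      intro Ω mΩ P iP A y X hRg s hs
      obtain ⟨F, hFm, hFP, hF⟩ := H1 Ω mΩ P iP A y X (hRg.mono le_rfl hN2.le) s hs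
      obtain ⟨E, hEF, hEm, hEP, hE⟩ := H2 Ω mΩ P iP A y X (hRg.mono (by omega) le_rfl) s hs F hFm
      have hFm' : MeasurableSet[FF A (Set.Iio N2)] F :=
        FF_mono (fun x hx => by
          simp only [Set.mem_Iio] at hx ⊢
          omega) _ hFm
      refine ⟨F \ E, @MeasurableSet.diff _ (FF A (Set.Iio N2)) _ _ hFm' hEm, ?_, ?_⟩
      · rw [measureReal_sdiff hEF (FF_le X.hA _ _ hEm), pow_succ]
        have h2 : 0 ≤ 1 - c := by linarith
        nlinarith [measureReal_nonneg (μ := P) (s := F)]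
      · intro ω hω
        by_cases h : ω ∈ F
        · have h2 : ω ∈ E := by
            by_contra h3
            exact hω ⟨h, h3⟩
          exact ⟨N2, by omega, hE ω h2⟩
        · exact hF ω h
  obtain ⟨r, hr⟩ := exists_pow_lt_of_lt_one hγ (show 1 - c < 1 by linarith)
  obtain ⟨N', hN', H⟩ := key (r + 1)
  refine ⟨N', by omega, ?_⟩
  intro Ω mΩ P iP A y X hRg s hs
  obtain ⟨F, -, hFP, hF⟩ := H Ω mΩ P iP A y X hRg s hs
  refine ⟨F, hFP.trans ?_, hF⟩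
  rw [pow_succ]
  have h2 : 0 ≤ (1 - c) ^ r := pow_nonneg (by linarith) r
  nlinarith

/-- Almost surely the walk is infinitely often almost always on a given side of the axis. -/
theorem main_abs {q : ℕ → ℕ} (hq : Tp q) : ∃ e : ℕ → ℝ, (∀ l, 0 < e l) ∧
    Tendsto e atTop (𝓝 0) ∧
      ∀ (Ω : Type) (_ : MeasurableSpace Ω) (P : Measure Ω) (_ : IsProbabilityMeasure P)
        (A : ℕ → Set Ω) (y : ℕ → Ω → ℝ), Md P A q y →
        (∀ᶠ l in atTop, e l ≤ P.real (A l) ∧ P.real (A l) ≤ 1 - e l) →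
        ∀ s : ℝ, (s = 1 ∨ s = -1) →
          ∀ᵐ ω ∂P, ∀ ε : ℝ, 0 < ε → ∃ᶠ n in atTop, (badc y s 0 n ω : ℝ) ≤ ε * n := by
  classical
  have hη0 : ∀ r : ℕ, (0 : ℝ) < 1 / (r + 4) := fun r => by positivity
  have hη1 : ∀ r : ℕ, (1 : ℝ) / (r + 4) ≤ 1 / 4 := fun r => by
    apply one_div_le_one_div_of_le (by norm_num)
    have : (0 : ℝ) ≤ r := Nat.cast_nonneg r
    linarith
  have hε0 : ∀ r : ℕ, (0 : ℝ) < 1 / (r + 1) := fun r => by positivity
  have hε1 : ∀ r : ℕ, (1 : ℝ) / (r + 1) ≤ 1 := fun r => by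
    rw [div_le_one (by positivity)]
    have : (0 : ℝ) ≤ r := Nat.cast_nonneg r
    linarith
  have hγ : ∀ r : ℕ, (0 : ℝ) < (1 / 2) ^ r := fun r => by positivity
  choose f hf using fun r : ℕ => iter hq (hη0 r) (hη1 r) (hε0 r) (hε1 r) (hγ r)
  let N : ℕ → ℕ := fun r => Nat.rec 0 (fun r n => f r n) r
  have hN : ∀ r, N (r + 1) = f r (N r) := fun r => rfl
  have hmono : StrictMono N := strictMono_nat_of_lt_succ fun r => by
    rw [hN]
    exact (hf r (N r)).1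
  have hex : ∀ l, ∃ r, l < N (r + 1) := fun l =>
    ⟨l, (Nat.lt_succ_self l).trans_le hmono.le_apply⟩
  let R : ℕ → ℕ := fun l => Nat.find (hex l)
  have hR1 : ∀ r l, l < N (r + 1) → R l ≤ r := fun r l h => Nat.find_min' _ h
  have hR2 : ∀ r l, N r ≤ l → r ≤ R l := by
    intro r l h
    by_contra hc
    have h1 : l < N (R l + 1) := Nat.find_spec (hex l)
    have h2 := hmono.monotone (show R l + 1 ≤ r by omega)
    omega
  refine ⟨fun l => 1 / (R l + 4), fun l => hη0 _, ?_, ?_⟩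
  · have h1 : Tendsto R atTop atTop :=
      tendsto_atTop.2 fun r => eventually_atTop.2 ⟨N r, fun l hl => hR2 r l hl⟩
    have h2 : Tendsto (fun l => (R l : ℝ) + 4) atTop atTop :=
      (tendsto_natCast_atTop_atTop.comp h1).atTop_add tendsto_const_nhds
    simp only [one_div]
    exact h2.inv_tendsto_atTop
  · intro Ω mΩ P iP A y X hev s hs
    obtain ⟨l₀, hl₀⟩ := eventually_atTop.1 hev
    -- the blocks from `l₀` on
    have hRg : ∀ r, l₀ ≤ r → Rg P A (1 / (r + 4)) (N r) (N (r + 1)) := by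
      intro r hr l h1 h2
      have h3 : l₀ ≤ l := hr.trans (hmono.le_apply.trans h1)
      have h4 := hl₀ l h3
      have h5 : R l = r := le_antisymm (hR1 r l h2) (hR2 r l h1)
      simp only [h5] at h4
      exact h4
    have hF : ∀ r, ∃ F : Set Ω, P.real F ≤ (1 / 2) ^ r ∧ (l₀ ≤ r → ∀ ω, ω ∉ F →
        ∃ m, N r ≤ m ∧ (badc y s 0 (q m) ω : ℝ) ≤ 1 / (r + 1) * q m) := by
      intro r
      by_cases hr : l₀ ≤ r
      · obtain ⟨F, h1, h2⟩ := (hf r (N r)).2 Ω mΩ P iP A y X (hRg r hr) s hs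
        exact ⟨F, h1, fun _ => h2⟩
      · exact ⟨∅, by simp, fun h => absurd h hr⟩
    choose F hF1 hF2 using hF
    have hsum : ∑' r, P (F r) ≠ ⊤ := by
      have h1 : ∀ r, P (F r) ≤ ENNReal.ofReal ((1 / 2) ^ r) := by
        intro r
        rw [← ofReal_measureReal]
        exact ENNReal.ofReal_le_ofReal (hF1 r)
      refine ne_top_of_le_ne_top ?_ (ENNReal.tsum_le_tsum h1)
      rw [← ENNReal.ofReal_tsum_of_nonneg (fun r => by positivity) summable_geometric_two]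
      exact ENNReal.ofReal_ne_top
    filter_upwards [ae_eventually_notMem hsum] with ω hω ε hε
    rw [frequently_atTop]
    intro n₀
    obtain ⟨r₁, hr₁⟩ := eventually_atTop.1 hω
    obtain ⟨r₂, hr₂⟩ := exists_nat_ge (1 / ε)
    obtain ⟨r, hr⟩ : ∃ r, r = max (max r₁ r₂) (max l₀ n₀) := ⟨_, rfl⟩
    have k1 : r₁ ≤ r := hr ▸ (le_max_left _ _).trans (le_max_left _ _)
    have k2 : r₂ ≤ r := hr ▸ (le_max_right _ _).trans (le_max_left _ _)
    have k3 : l₀ ≤ r := hr ▸ (le_max_left _ _).trans (le_max_right _ _)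
    have k4 : n₀ ≤ r := hr ▸ (le_max_right _ _).trans (le_max_right _ _)
    obtain ⟨m, hm1, hm2⟩ := hF2 r k3 ω (hr₁ r k1)
    refine ⟨q m, ?_, hm2.trans ?_⟩
    · exact k4.trans (hmono.le_apply.trans (hm1.trans hq.mono.le_apply))
    · refine mul_le_mul_of_nonneg_right ?_ (Nat.cast_nonneg _)
      rw [div_le_iff₀ (by positivity)]
      rw [div_le_iff₀ hε] at hr₂
      have h1 : (r₂ : ℝ) ≤ r := by exact_mod_cast k2
      nlinarith

end Pool.Agent.Lib.MP_30d2b9_nt
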