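import Mathlib

/-!
The ladder which turns at the elements of a set, and elementary facts.
-/

namespace Pool.Agent.Lib.MP_30d2b9_nt

open Filter Topology Finset

/-- Number of elements of `S` which are at most `k`. -/
noncomputable def cnt (S : Set ℕ) (k : ℕ) : ℕ := (S ∩ Set.Iic k).ncard

/-- The ladder which reverses its direction immediately after each element of `S`:
`lad S 1 = 0` and `lad S (k + 1) = lad S k + (-1) ^ cnt S k` for `k ≥ 1`. -/
noncomputable def lad (S : Set ℕ) : ℕ → ℤ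
  | 0 => 0
  | 1 => 0
  | k + 2 => lad S (k + 1) + (-1) ^ cnt S (k + 1)

/-- Number of zeroes up to `n`. -/
noncomputable def zeros (S : Set ℕ) (n : ℕ) : ℕ := ((Icc 1 n).filter fun k => lad S k = 0).card

/-- Number of points above the axis up to `n`. -/
noncomputable def cpos (S : Set ℕ) (n : ℕ) : ℕ := ((Icc 1 n).filter fun k => 0 < lad S k).card

/-- Number of points below the axis up to `n`. -/
noncomputable def cneg (S : Set ℕ) (n : ℕ) : ℕ := ((Icc 1 n).filter fun k => lad S k < 0).card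

theorem lad_succ (S : Set ℕ) {k : ℕ} (hk : 1 ≤ k) :
    lad S (k + 1) = lad S k + (-1) ^ cnt S k := by
  obtain ⟨k, rfl⟩ : ∃ k', k = k' + 1 := ⟨k - 1, by omega⟩
  rw [lad]

theorem step_or (S : Set ℕ) (k : ℕ) :
    lad S (k + 1) = lad S k ∨ lad S (k + 1) = lad S k + 1 ∨ lad S (k + 1) = lad S k - 1 := by
  rcases Nat.eq_zero_or_pos k with rfl | hk
  · exact Or.inl (by simp [lad])
  · right
    rw [lad_succ S hk]
    rcases neg_one_pow_eq_or ℤ (cnt S k) with h | h <;> rw [h]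
    · exact Or.inl rfl
    · exact Or.inr rfl

theorem lad_le (S : Set ℕ) (k : ℕ) : |lad S k| ≤ k := by
  induction k with
  | zero => simp [lad]
  | succ k ih =>
    rw [abs_le] at ih ⊢
    push_cast
    rcases step_or S k with h | h | h <;> rw [h] <;> constructor <;> linarith [ih.1, ih.2]

theorem ev_pos {S : Set ℕ} {n : ℕ} (h0 : ∀ k, n ≤ k → lad S k ≠ 0) (h : 0 < lad S n) {k : ℕ}
    (hk : n ≤ k) : 0 < lad S k := by
  induction k, hk using Nat.le_induction with
  | base => exact h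
  | succ k hk ih =>
    have h1 := h0 (k + 1) (by omega)
    rcases step_or S k with h2 | h2 | h2 <;> omega

theorem ev_neg {S : Set ℕ} {n : ℕ} (h0 : ∀ k, n ≤ k → lad S k ≠ 0) (h : lad S n < 0) {k : ℕ}
    (hk : n ≤ k) : lad S k < 0 := by
  induction k, hk using Nat.le_induction with
  | base => exact h
  | succ k hk ih =>
    have h1 := h0 (k + 1) (by omega)
    rcases step_or S k with h2 | h2 | h2 <;> omega

theorem zeros_tendsto {S : Set ℕ} (h : ∀ n, ∃ k, n ≤ k ∧ lad S k = 0) :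
    Tendsto (zeros S) atTop atTop := by
  have hinf : Set.Infinite {k | 1 ≤ k ∧ lad S k = 0} := by
    refine Set.infinite_of_not_bddAbove ?_
    rintro ⟨b, hb⟩
    obtain ⟨k, hk1, hk2⟩ := h (b + 1)
    have := hb (show k ∈ {k | 1 ≤ k ∧ lad S k = 0} from ⟨by omega, hk2⟩)
    omega
  refine tendsto_atTop_atTop_of_monotone ?_ fun b => ?_
  · intro m n hmn
    exact card_le_card (filter_subset_filter _ (Icc_subset_Icc_right hmn))
  · obtain ⟨t, ht, hc⟩ := hinf.exists_subset_card_eq b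
    refine ⟨t.sup id, ?_⟩
    rw [← hc]
    refine card_le_card fun k hk => ?_
    have h1 := ht hk
    rw [mem_filter, mem_Icc]
    exact ⟨⟨h1.1, le_sup (f := id) hk⟩, h1.2⟩

/-- Number of points `k < n` with `f k ≤ 0`. -/
def bad (f : ℕ → ℤ) (n : ℕ) : ℕ := ((range n).filter fun k => f k ≤ 0).card

/-- In terms of the counts. -/
theorem counts {f : ℕ → ℤ} (f0 : f 0 = 0)
    (h : ∀ ε : ℝ, 0 < ε → ∃ᶠ n in atTop, (bad f n : ℝ) ≤ ε * n) {ε : ℝ} (hε : 0 < ε) :
    ∃ᶠ n in atTop, (((Icc 1 n).filter fun k => f k < 0).card : ℝ) ≤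
      ε * ((Icc 1 n).filter fun k => 0 < f k).card := by
  classical
  obtain ⟨δ, hδ⟩ : ∃ δ, δ = min ε 1 / 2 := ⟨_, rfl⟩
  have hδ0 : 0 < δ := by
    rw [hδ]
    positivity
  have hδ1 : δ ≤ 1 / 2 := by
    rw [hδ]
    have := min_le_right ε 1
    linarith
  have hδ2 : 2 * δ ≤ ε := by
    rw [hδ]
    have := min_le_left ε 1
    linarith
  rw [frequently_atTop]
  intro n₀
  obtain ⟨n, hn1, hn2⟩ := frequently_atTop.1 (h δ hδ0) (n₀ + 1)
  obtain ⟨m, rfl⟩ : ∃ m, n = m + 1 := ⟨n - 1, by omega⟩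
  refine ⟨m, by omega, ?_⟩
  obtain ⟨cn, hcn⟩ : ∃ c, c = ((Icc 1 m).filter fun k => f k < 0).card := ⟨_, rfl⟩
  obtain ⟨cp, hcp⟩ : ∃ c, c = ((Icc 1 m).filter fun k => 0 < f k).card := ⟨_, rfl⟩
  have h1 : cn ≤ bad f (m + 1) := by
    unfold bad
    rw [hcn]
    refine card_le_card fun k hk => ?_
    rw [mem_filter, mem_Icc] at hk
    rw [mem_filter, mem_range]
    exact ⟨by omega, hk.2.le⟩
  have h2 : m + 1 ≤ cp + bad f (m + 1) := by
    have h3 : range (m + 1) ⊆ ((Icc 1 m).filter fun k => 0 < f k) ∪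
        ((range (m + 1)).filter fun k => f k ≤ 0) := by
      intro k hk
      rw [mem_union, mem_filter, mem_filter, mem_Icc]
      by_cases h4 : 0 < f k
      · refine Or.inl ⟨⟨?_, ?_⟩, h4⟩
        · by_contra h5
          have h6 : k = 0 := by omega
          rw [h6, f0] at h4
          exact lt_irrefl _ h4
        · rw [mem_range] at hk
          omega
      · exact Or.inr ⟨hk, not_lt.1 h4⟩
    have h4 := (card_le_card h3).trans (card_union_le _ _)
    rw [card_range, ← hcp] at h4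
    exact h4
  rw [← hcn, ← hcp]
  have h3 : (cn : ℝ) ≤ δ * ((m + 1 : ℕ) : ℝ) := le_trans (by exact_mod_cast h1) hn2
  have h4 : ((m + 1 : ℕ) : ℝ) ≤ cp + δ * ((m + 1 : ℕ) : ℝ) := by
    have h5 : ((m + 1 : ℕ) : ℝ) ≤ cp + bad f (m + 1) := by exact_mod_cast h2
    linarith
  have h5 : (0 : ℝ) ≤ ((m + 1 : ℕ) : ℝ) := Nat.cast_nonneg _
  have h6 : (0 : ℝ) ≤ cp := Nat.cast_nonneg _
  have h7 : ((m + 1 : ℕ) : ℝ) ≤ 2 * cp := by nlinarith
  have h8 : (cn : ℝ) ≤ 2 * δ * cp := by nlinarith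
  nlinarith

/-- A walk which is frequently almost always positive is not negative from some point on. -/
theorem not_ev {f : ℕ → ℤ} (h : ∀ ε : ℝ, 0 < ε → ∃ᶠ n in atTop, (bad f n : ℝ) ≤ ε * n) (n : ℕ)
    (hn : ∀ k, n ≤ k → f k ≤ 0) : False := by
  classical
  obtain ⟨m, hm1, hm2⟩ := frequently_atTop.1 (h (1 / 2) (by norm_num)) (2 * n + 1)
  have h1 : m - n ≤ bad f m := by
    rw [← Nat.card_Ico]
    unfold bad
    refine card_le_card fun k hk => ?_
    rw [mem_Ico] at hk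
    rw [mem_filter, mem_range]
    exact ⟨hk.2, hn k hk.1⟩
  have h2 : ((m - n : ℕ) : ℝ) ≤ 1 / 2 * m := le_trans (by exact_mod_cast h1) hm2
  rw [Nat.cast_sub (by omega)] at h2
  have h3 : ((2 * n + 1 : ℕ) : ℝ) ≤ m := by exact_mod_cast hm1
  push_cast at h3
  linarith

/-- The conclusion in terms of the numbers of bad points. -/
theorem unbalanced {S : Set ℕ}
    (h1 : ∀ ε : ℝ, 0 < ε → ∃ᶠ n in atTop, (bad (lad S) n : ℝ) ≤ ε * n)
    (h2 : ∀ ε : ℝ, 0 < ε → ∃ᶠ n in atTop, (bad (fun k => -lad S k) n : ℝ) ≤ ε * n) :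
    Tendsto (zeros S) atTop atTop ∧ ∀ ε : ℝ, 0 < ε →
      (∃ᶠ n in atTop, (cneg S n : ℝ) ≤ ε * cpos S n) ∧
        ∃ᶠ n in atTop, (cpos S n : ℝ) ≤ ε * cneg S n := by
  refine ⟨zeros_tendsto fun n => ?_, fun ε hε => ⟨?_, ?_⟩⟩
  · by_contra hcon
    push Not at hcon
    rcases lt_or_gt_of_ne (hcon n le_rfl) with h | h
    · exact not_ev h1 n fun k hk => (ev_neg hcon h hk).le
    · refine not_ev h2 n fun k hk => ?_
      have := ev_pos hcon h hk
      omega
  · exact counts (f := lad S) rfl h1 hε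
  · have h3 := counts (f := fun k => -lad S k) rfl h2 hε
    simp only [neg_neg_iff_pos, neg_pos] at h3
    exact h3

end Pool.Agent.Lib.MP_30d2b9_nt
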