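import Mathlib
import Pool.Agent.Lib.MP_30d2b9_nt.Ladder

/-!
Few turning points can be removed such that the ladder climbs.
-/

namespace Pool.Agent.Lib.MP_30d2b9_nt

open Filter Topology Finset

theorem cnt_finset (Θ : Finset ℕ) (k : ℕ) : cnt (Θ : Set ℕ) k = (Θ.filter fun x => x ≤ k).card := by
  rw [cnt, ← Set.ncard_coe_finset]
  congr 1
  ext x
  simp

theorem cnt_diff {S : Set ℕ} {Θ : Finset ℕ} (h : (Θ : Set ℕ) ⊆ S) (k : ℕ) :
    cnt S k = cnt (S \ Θ) k + cnt (Θ : Set ℕ) k := by
  have hf : ∀ s : Set ℕ, (s ∩ Set.Iic k).Finite := fun s =>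
    (Set.finite_Iic k).subset Set.inter_subset_right
  rw [cnt, cnt, cnt, ← Set.ncard_union_eq ?_ (hf _) (hf _)]
  · congr 1
    ext x
    simp only [Set.mem_inter_iff, Set.mem_union, Set.mem_sdiff]
    constructor
    · rintro ⟨h1, h2⟩
      by_cases h3 : x ∈ (Θ : Set ℕ)
      · exact Or.inr ⟨h3, h2⟩
      · exact Or.inl ⟨⟨h1, h3⟩, h2⟩
    · rintro (⟨⟨h1, -⟩, h2⟩ | ⟨h1, h2⟩)
      · exact ⟨h1, h2⟩
      · exact ⟨h h1, h2⟩
  · rw [Set.disjoint_left]
    rintro x ⟨⟨-, h1⟩, -⟩ ⟨h2, -⟩
    exact h1 h2

/-- The effect of removing turning points. -/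
theorem step_diff {S : Set ℕ} {Θ : Finset ℕ} (h : (Θ : Set ℕ) ⊆ S) {k : ℕ} (hk : 1 ≤ k) :
    lad (S \ Θ) (k + 1) - lad (S \ Θ) k =
      (-1) ^ (Θ.filter fun x => x ≤ k).card * (lad S (k + 1) - lad S k) := by
  rw [lad_succ _ hk, lad_succ _ hk, add_sub_cancel_left, add_sub_cancel_left, cnt_diff h k,
    cnt_finset, pow_add, mul_left_comm, ← pow_add, Even.neg_one_pow ⟨_, rfl⟩, mul_one]

theorem tele {f g : ℕ → ℤ} {ε : ℤ} {c T : ℕ}
    (h : ∀ k, c ≤ k → k < T → g (k + 1) - g k = ε * (f (k + 1) - f k)) {t : ℕ} (h1 : c ≤ t)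
    (h2 : t ≤ T) : g t - g c = ε * (f t - f c) := by
  induction t, h1 using Nat.le_induction with
  | base => simp
  | succ k hk ih =>
    have h3 := h k hk (by omega)
    have h4 := ih (by omega)
    linarith

theorem lad_congr {S S' : Set ℕ} {N : ℕ} (h : ∀ x, x ≤ N → (x ∈ S ↔ x ∈ S')) {k : ℕ}
    (hk : k ≤ N + 1) : lad S k = lad S' k := by
  induction k with
  | zero => rfl
  | succ k ih =>
    rcases Nat.eq_zero_or_pos k with rfl | hk'
    · rfl
    · rw [lad_succ _ hk', lad_succ _ hk', ih (by omega)]
      congr 2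
      unfold cnt
      congr 1
      ext x
      simp only [Set.mem_inter_iff, Set.mem_Iic]
      constructor
      · rintro ⟨h1, h2⟩
        exact ⟨(h x (by omega)).1 h1, h2⟩
      · rintro ⟨h1, h2⟩
        exact ⟨(h x (by omega)).2 h1, h2⟩

theorem lad_before {S : Set ℕ} {Θ : Finset ℕ} {a : ℕ} (h : ∀ θ ∈ Θ, a ≤ θ) {k : ℕ}
    (hk : k ≤ a) : lad (S \ Θ) k = lad S k := by
  rcases Nat.eq_zero_or_pos a with rfl | ha
  · have : k = 0 := by omega
    rw [this]
    rfl
  · refine lad_congr (N := a - 1) (fun x hx => ?_) (by omega)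
    rw [Set.mem_sdiff]
    constructor
    · exact fun h1 => h1.1
    · intro h1
      refine ⟨h1, fun h2 => ?_⟩
      have := h x h2
      omega

theorem cnt_notMem {S : Set ℕ} {k : ℕ} (h : k + 1 ∉ S) : cnt S (k + 1) = cnt S k := by
  unfold cnt
  congr 1
  ext x
  simp only [Set.mem_inter_iff, Set.mem_Iic]
  constructor
  · rintro ⟨h1, h2⟩
    refine ⟨h1, ?_⟩
    by_contra h3
    have h4 : x = k + 1 := by omega
    rw [h4] at h1
    exact h h1
  · rintro ⟨h1, h2⟩
    exact ⟨h1, by omega⟩

/-- A point where the direction changes is a turning point. -/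
theorem mem_of_turn {S : Set ℕ} {c : ℕ} (hc : 2 ≤ c)
    (h : lad S (c + 1) - lad S c ≠ lad S c - lad S (c - 1)) : c ∈ S := by
  by_contra hcon
  obtain ⟨b, rfl⟩ : ∃ b, c = b + 1 := ⟨c - 1, by omega⟩
  apply h
  rw [lad_succ S (by omega : 1 ≤ b + 1), cnt_notMem hcon, add_tsub_cancel_right,
    lad_succ S (by omega : 1 ≤ b)]
  ring

theorem step_ne (S : Set ℕ) {k : ℕ} (hk : 1 ≤ k) :
    lad S (k + 1) - lad S k = 1 ∨ lad S (k + 1) - lad S k = -1 := by
  rw [lad_succ S hk, add_sub_cancel_left]
  exact neg_one_pow_eq_or ℤ _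

/-- Removing few turning points, the ladder climbs. -/
theorem greedy (S : Set ℕ) {ρ W : ℤ} (hρ : 1 ≤ ρ) (T : ℕ) (m : ℕ) :
    ∀ (a : ℕ) (s : ℤ), 1 ≤ a → a ≤ T → a ∈ S → (s = 1 ∨ s = -1) →
    (∀ u v, a ≤ u → u ≤ T → a ≤ v → v ≤ T → lad S u - lad S v ≤ W) →
    ∃ Θ : Finset ℕ, (Θ : Set ℕ) ⊆ S ∧ (∀ θ ∈ Θ, a ≤ θ ∧ θ ≤ T) ∧ Θ.card ≤ m + 1 ∧
      ∀ t, a ≤ t → t ≤ T → ∀ u, a ≤ u → u ≤ t →
        min (|lad S u - lad S a| - 2 * ρ) (m * ρ - W) ≤ s * (lad (S \ Θ) t - lad S a) := by
  classical
  induction m with
  | zero =>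
    intro a s ha haT haS hs hW
    refine ⟨∅, by simp, by simp, by simp, fun t ht1 ht2 u hu1 hu2 => ?_⟩
    rw [coe_empty, Set.sdiff_empty]
    refine (min_le_right _ _).trans ?_
    have h1 := hW t a ht1 ht2 le_rfl haT
    have h2 := hW a t le_rfl haT ht1 ht2
    rcases hs with rfl | rfl
    · push_cast
      linarith
    · push_cast
      linarith
  | succ m ih =>
    intro a s ha haT haS hs hW
    by_cases hbig : ∃ u, a ≤ u ∧ u ≤ T ∧ ρ ≤ |lad S u - lad S a|
    · -- the first large displacement
      obtain ⟨b₀, ⟨hb1, hb2, hb3⟩, hb4⟩ : ∃ b₀, (a ≤ b₀ ∧ b₀ ≤ T ∧ ρ ≤ |lad S b₀ - lad S a|) ∧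
          ∀ u < b₀, ¬ (a ≤ u ∧ u ≤ T ∧ ρ ≤ |lad S u - lad S a|) :=
        ⟨Nat.find hbig, Nat.find_spec hbig, fun u hu => Nat.find_min hbig hu⟩
      have hsmall : ∀ u, a ≤ u → u < b₀ → |lad S u - lad S a| < ρ := by
        intro u h1 h2
        by_contra hcon
        exact hb4 u h2 ⟨h1, by omega, not_lt.1 hcon⟩
      have hab₀ : a < b₀ := by
        rcases hb1.eq_or_lt with h | h
        · rw [← h, sub_self, abs_zero] at hb3
          omega
        · exact h
      obtain ⟨τ, hτ, hτ1⟩ : ∃ τ : ℤ, (τ = 1 ∨ τ = -1) ∧ ρ ≤ τ * (lad S b₀ - lad S a) := by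
        rcases abs_choice (lad S b₀ - lad S a) with h | h
        · refine ⟨1, Or.inl rfl, ?_⟩
          rw [h] at hb3
          linarith
        · refine ⟨-1, Or.inr rfl, ?_⟩
          rw [h] at hb3
          linarith
      have hττ : τ * τ = 1 := by rcases hτ with rfl | rfl <;> rfl
      have hss : s * s = 1 := by rcases hs with rfl | rfl <;> rfl
      have habsτ : ∀ x : ℤ, |x| = |τ * x| := by
        intro x
        rcases hτ with rfl | rfl
        · rw [one_mul]
        · rw [neg_one_mul, abs_neg]
      -- the initial orientation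
      obtain ⟨Θ₁, hΘ₁a, hΘ₁⟩ : ∃ Θ₁ : Finset ℕ, Θ₁ ⊆ {a} ∧ (-1 : ℤ) ^ Θ₁.card = s * τ := by
        have h1 : s * τ = 1 ∨ s * τ = -1 := by
          rcases hs with rfl | rfl <;> rcases hτ with rfl | rfl <;> norm_num
        rcases h1 with h1 | h1
        · exact ⟨∅, by simp, by rw [h1]; simp⟩
        · exact ⟨{a}, subset_rfl, by rw [h1]; simp⟩
      have hΘ₁m : ∀ θ ∈ Θ₁, θ = a := fun θ hθ => by simpa using hΘ₁a hθ
      have hΘ₁S : (Θ₁ : Set ℕ) ⊆ S := fun θ hθ => by
        rw [hΘ₁m θ hθ]
        exact haS
      have hΘ₁c : Θ₁.card ≤ 1 := by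
        have := card_le_card hΘ₁a
        rwa [card_singleton] at this
      have hΘ₁f : ∀ k, a ≤ k → (Θ₁.filter fun x => x ≤ k) = Θ₁ := fun k hk =>
        filter_true_of_mem fun θ hθ => by
          rw [hΘ₁m θ hθ]
          exact hk
      by_cases hdown : ∃ v, b₀ ≤ v ∧ v ≤ T ∧ ∃ u, b₀ ≤ u ∧ u ≤ v ∧
          ρ ≤ τ * lad S u - τ * lad S v
      · obtain ⟨b, ⟨hc1, hc2, u₀, hu1, hu2, hu3⟩, hc4⟩ : ∃ b, (b₀ ≤ b ∧ b ≤ T ∧ ∃ u, b₀ ≤ u ∧
            u ≤ b ∧ ρ ≤ τ * lad S u - τ * lad S b) ∧ ∀ v < b, ¬ (b₀ ≤ v ∧ v ≤ T ∧ ∃ u, b₀ ≤ u ∧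
            u ≤ v ∧ ρ ≤ τ * lad S u - τ * lad S v) :=
          ⟨Nat.find hdown, Nat.find_spec hdown, fun u hu => Nat.find_min hdown hu⟩
        have hdd : ∀ u v, b₀ ≤ u → u ≤ v → v < b → τ * lad S u - τ * lad S v < ρ := by
          intro u v h1 h2 h3
          by_contra hcon
          exact hc4 v h3 ⟨by omega, by omega, u, h1, h2, not_lt.1 hcon⟩
        -- the highest point
        obtain ⟨c, hcm, hcmax⟩ := exists_max_image (Icc b₀ b) (fun u => τ * lad S u)
          ⟨b₀, by rw [mem_Icc]; exact ⟨le_rfl, hc1⟩⟩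
        rw [mem_Icc] at hcm
        have hcmax' : ∀ u, b₀ ≤ u → u ≤ b → τ * lad S u ≤ τ * lad S c := fun u h1 h2 =>
          hcmax u (by rw [mem_Icc]; exact ⟨h1, h2⟩)
        have hcb : c < b := by
          rcases hcm.2.eq_or_lt with h | h
          · have h1 := hcmax' u₀ hu1 hu2
            rw [h] at h1
            omega
          · exact h
        have hca : a < c := by omega
        have hMax : ρ ≤ τ * (lad S c - lad S a) := by
          have h1 := hcmax' b₀ le_rfl hc1
          linarith
        have hcmax2 : ∀ u, a ≤ u → u ≤ b → τ * lad S u ≤ τ * lad S c := by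
          intro u h1 h2
          by_cases h3 : b₀ ≤ u
          · exact hcmax' u h3 h2
          · have h4 := hsmall u h1 (by omega)
            rw [habsτ, abs_lt] at h4
            linarith [h4.2]
        have hcS : c ∈ S := by
          refine mem_of_turn (by omega) fun h => ?_
          have h1 := hcmax2 (c + 1) (by omega) (by omega)
          have h2 := hcmax2 (c - 1) (by omega) (by omega)
          have h3 := step_ne S (show 1 ≤ c by omega)
          have h4 : τ * (lad S (c + 1) - lad S c) ≤ 0 := by linarith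
          have h5 : 0 ≤ τ * (lad S c - lad S (c - 1)) := by linarith
          rw [← h] at h5
          have h6 : τ * (lad S (c + 1) - lad S c) = 0 := le_antisymm h4 h5
          rcases h3 with h3 | h3 <;> rw [h3] at h6 <;> rcases hτ with rfl | rfl <;> norm_num at h6
        obtain ⟨Θ₂, hΘ₂S, hΘ₂r, hΘ₂c, hΘ₂⟩ := ih c τ (by omega) (by omega) hcS hτ
          fun u v h1 h2 h3 h4 => hW u v (by omega) h2 (by omega) h4
        have hdisj : Disjoint Θ₁ Θ₂ := by
          rw [disjoint_left]
          intro θ h1 h2
          have h3 := hΘ₁m θ h1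
          have h4 := (hΘ₂r θ h2).1
          omega
        have hUS : ((Θ₁ ∪ Θ₂ : Finset ℕ) : Set ℕ) ⊆ S := by
          rw [coe_union]
          exact Set.union_subset hΘ₁S hΘ₂S
        have hUc : (Θ₁ ∪ Θ₂).card = Θ₁.card + Θ₂.card := card_union_of_disjoint hdisj
        have hUa : ∀ θ ∈ Θ₁ ∪ Θ₂, a ≤ θ := by
          intro θ hθ
          rcases mem_union.1 hθ with h | h
          · exact (hΘ₁m θ h).ge
          · have := (hΘ₂r θ h).1
            omega
        have hUf : ∀ k, a ≤ k → ((Θ₁ ∪ Θ₂).filter fun x => x ≤ k).card =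
            Θ₁.card + (Θ₂.filter fun x => x ≤ k).card := by
          intro k hk
          rw [filter_union, hΘ₁f k hk, card_union_of_disjoint]
          exact hdisj.mono_right (filter_subset _ _)
        have hat : lad (S \ (Θ₁ ∪ Θ₂ : Finset ℕ)) a = lad S a := lad_before hUa le_rfl
        have hfirst : ∀ t, a ≤ t → t ≤ c →
            s * (lad (S \ (Θ₁ ∪ Θ₂ : Finset ℕ)) t - lad S a) = τ * (lad S t - lad S a) := by
          intro t h1 h2
          have h3 := tele (f := lad S) (g := lad (S \ (Θ₁ ∪ Θ₂ : Finset ℕ))) (ε := s * τ)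
            (c := a) (T := c) (fun k hk1 hk2 => by
              rw [step_diff hUS (by omega), hUf k hk1]
              have h4 : (Θ₂.filter fun x => x ≤ k) = ∅ := by
                rw [filter_eq_empty_iff]
                intro θ hθ
                have := (hΘ₂r θ hθ).1
                omega
              rw [h4, card_empty, add_zero, hΘ₁]) h1 h2
          rw [hat] at h3
          rw [h3, ← mul_assoc, ← mul_assoc, hss, one_mul]
        have hsecond : ∀ t, c ≤ t → t ≤ T →
            s * (lad (S \ (Θ₁ ∪ Θ₂ : Finset ℕ)) t - lad (S \ (Θ₁ ∪ Θ₂ : Finset ℕ)) c) =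
              τ * (lad (S \ Θ₂) t - lad S c) := by
          intro t h1 h2
          have h3 := tele (f := lad (S \ Θ₂)) (g := lad (S \ (Θ₁ ∪ Θ₂ : Finset ℕ)))
            (ε := s * τ) (c := c) (T := T) (fun k hk1 hk2 => by
              rw [step_diff hUS (by omega), hUf k (by omega), step_diff hΘ₂S (by omega), pow_add,
                hΘ₁, mul_assoc]) h1 h2
          rw [lad_before (fun θ hθ => (hΘ₂r θ hθ).1) le_rfl] at h3
          rw [h3, ← mul_assoc, ← mul_assoc, hss, one_mul]
        refine ⟨Θ₁ ∪ Θ₂, hUS, ?_, ?_, ?_⟩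
        · intro θ hθ
          refine ⟨hUa θ hθ, ?_⟩
          rcases mem_union.1 hθ with h | h
          · rw [hΘ₁m θ h]
            exact haT
          · exact (hΘ₂r θ h).2
        · rw [hUc]
          omega
        · intro t ht1 ht2 u hua hut
          by_cases htc : t ≤ c
          · rw [hfirst t ht1 htc]
            refine (min_le_left _ _).trans ?_
            by_cases htb : t < b₀
            · have h1 := hsmall t ht1 htb
              have h2 := hsmall u hua (by omega)
              rw [habsτ, abs_lt] at h1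
              linarith [h1.1]
            · have h1 := hdd b₀ t le_rfl (by omega) (by omega)
              by_cases hub : u < b₀
              · have h2 := hsmall u hua hub
                linarith
              · have h2 := hdd u t (by omega) hut (by omega)
                have h3 := hdd b₀ u le_rfl (by omega) (by omega)
                have h4 : 0 ≤ τ * (lad S u - lad S a) := by linarith
                rw [habsτ, abs_of_nonneg h4]
                linarith
          · have htc' : c ≤ t := by omega
            have e1 := hsecond t htc' ht2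
            have e2 := hfirst c hca.le le_rfl
            have e3 : s * (lad (S \ (Θ₁ ∪ Θ₂ : Finset ℕ)) t - lad S a) =
                τ * (lad S c - lad S a) + τ * (lad (S \ Θ₂) t - lad S c) := by
              rw [← e1, ← e2]
              ring
            rw [e3]
            push_cast
            by_cases huc : u ≤ c
            · have h1 := hΘ₂ t htc' ht2 c le_rfl htc'
              rw [sub_self, abs_zero] at h1
              have h2 : |lad S u - lad S a| ≤ τ * (lad S c - lad S a) := by
                by_cases hub : u < b₀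
                · have := hsmall u hua hub
                  linarith
                · have h3 := hdd b₀ u le_rfl (by omega) (by omega)
                  have h4 : 0 ≤ τ * (lad S u - lad S a) := by linarith
                  rw [habsτ, abs_of_nonneg h4]
                  have := hcmax2 u hua (by omega)
                  linarith
              rcases le_total (0 - 2 * ρ) ((m : ℤ) * ρ - W) with h3 | h3
              · rw [min_eq_left h3] at h1
                refine (min_le_left _ _).trans ?_
                linarith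
              · rw [min_eq_right h3] at h1
                refine (min_le_right _ _).trans ?_
                linarith
            · have h1 := hΘ₂ t htc' ht2 u (by omega) hut
              have h2 : |lad S u - lad S a| ≤ |lad S u - lad S c| + τ * (lad S c - lad S a) := by
                have h3 : |lad S c - lad S a| = τ * (lad S c - lad S a) := by
                  rw [habsτ, abs_of_nonneg (by omega)]
                rw [← h3]
                have h4 : lad S u - lad S a = (lad S u - lad S c) + (lad S c - lad S a) := by ring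
                rw [h4]
                exact abs_add_le _ _
              rcases le_total (|lad S u - lad S c| - 2 * ρ) ((m : ℤ) * ρ - W) with h3 | h3
              · rw [min_eq_left h3] at h1
                refine (min_le_left _ _).trans ?_
                linarith
              · rw [min_eq_right h3] at h1
                refine (min_le_right _ _).trans ?_
                linarith
      · -- no fall
        have hdd : ∀ u v, b₀ ≤ u → u ≤ v → v ≤ T → τ * lad S u - τ * lad S v < ρ := by
          intro u v h1 h2 h3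
          by_contra hcon
          exact hdown ⟨v, by omega, h3, u, h1, h2, not_lt.1 hcon⟩
        refine ⟨Θ₁, hΘ₁S, fun θ hθ => ?_, by omega, ?_⟩
        · rw [hΘ₁m θ hθ]
          exact ⟨le_rfl, haT⟩
        · intro t ht1 ht2 u hua hut
          have h3 := tele (f := lad S) (g := lad (S \ Θ₁)) (ε := s * τ)
            (c := a) (T := T) (fun k hk1 hk2 => by
              rw [step_diff hΘ₁S (by omega), hΘ₁f k hk1, hΘ₁]) ht1 ht2
          rw [lad_before (fun θ hθ => (hΘ₁m θ hθ).ge) le_rfl] at h3
          rw [h3, ← mul_assoc, ← mul_assoc, hss, one_mul]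
          refine (min_le_left _ _).trans ?_
          by_cases htb : t < b₀
          · have h1 := hsmall t ht1 htb
            have h2 := hsmall u hua (by omega)
            rw [habsτ, abs_lt] at h1
            linarith [h1.1]
          · have h1 := hdd b₀ t le_rfl (by omega) ht2
            by_cases hub : u < b₀
            · have h2 := hsmall u hua hub
              linarith
            · have h2 := hdd u t (by omega) hut ht2
              have h3 := hdd b₀ u le_rfl (by omega) (by omega)
              have h4 : 0 ≤ τ * (lad S u - lad S a) := by linarith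
              rw [habsτ, abs_of_nonneg h4]
              linarith
    · -- no large displacement
      push Not at hbig
      refine ⟨∅, by simp, by simp, by simp, fun t ht1 ht2 u hu1 hu2 => ?_⟩
      rw [coe_empty, Set.sdiff_empty]
      refine (min_le_left _ _).trans ?_
      have h1 := hbig t ht1 ht2
      have h2 := hbig u hu1 (by omega)
      rw [abs_lt] at h1
      rcases hs with rfl | rfl
      · linarith [h1.1]
      · linarith [h1.2]

end Pool.Agent.Lib.MP_30d2b9_nt
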